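import Pool.Agent.H11.EQ.Stm

/-! EQ-CZ: a covering lies over `Z`. -/

set_option autoImplicit false

namespace Pool.Agent.H11.EQ.CZ

open Polynomial Finset
open Pool.Agent.Q51.EL (hom)
open Pool.Agent.Q51.EB (up)

theorem sq_of (g : ℤ[X]) (hg : g ≠ 0) (d : ℚ[X])
    (hsq : IsSquare (((g.leadingCoeff : ℤ) : ℚ) *
      Algebra.norm ℚ (AdjoinRoot.mk (g.map (Int.castRingHom ℚ)) d)))
    (F : Type) [Field F] [CharZero F] (x w : F) (q : F[X])
    (hdvd : g.map (Int.castRingHom F) ∣ C x - C w * X - d.map (Rat.castHom F) * q ^ 2) :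
    ∃ z : F, z ^ 2 = hom g x w := by
  obtain ⟨s, hs⟩ := hsq
  have hgF : up g F ≠ 0 := by
    unfold up
    exact (Polynomial.map_ne_zero_iff (Int.cast_injective (α := F))).2 hg
  have hgQ : up g ℚ ≠ 0 := by
    unfold up
    exact (Polynomial.map_ne_zero_iff (Int.cast_injective (α := ℚ))).2 hg
  have h1 : AdjoinRoot.mk (up g F) (C x - C w * X) =
      AdjoinRoot.mk (up g F) (d.map (Rat.castHom F)) * AdjoinRoot.mk (up g F) q ^ 2 := by
    rw [← map_pow, ← map_mul, AdjoinRoot.mk_eq_mk]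
    exact hdvd
  have h2 := congrArg (Algebra.norm F) h1
  rw [map_mul, map_pow] at h2
  have h3 : Algebra.norm F (AdjoinRoot.mk (up g F) (d.map (Rat.castHom F))) =
      ((Algebra.norm ℚ (AdjoinRoot.mk (up g ℚ) d) : ℚ) : F) := by
    rw [Pool.Agent.Q247.EB.up_map g F, Pool.Agent.Q247.EB.norm_bc (Rat.castHom F) hgQ d]
    rfl
  have h4 := Pool.Agent.Q58.EB.norm_lin (F := F) hg x w
  rw [h2, h3] at h4
  obtain ⟨G, hG⟩ : ∃ G, G = Algebra.norm F (AdjoinRoot.mk (up g F) q) := ⟨_, rfl⟩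
  obtain ⟨N, hN⟩ : ∃ N, N = Algebra.norm ℚ (AdjoinRoot.mk (up g ℚ) d) := ⟨_, rfl⟩
  have hs' : ((g.leadingCoeff : ℤ) : ℚ) * N = s * s := by
    rw [hN]
    exact hs
  rw [← hG, ← hN] at h4
  have h8 : (g.leadingCoeff : F) * (N : F) = (s : F) * (s : F) := by
    have := congrArg (fun q : ℚ => (q : F)) hs'
    push_cast at this
    exact this
  refine ⟨(s : F) * G, ?_⟩
  rw [← h4]
  linear_combination (-(G ^ 2)) * h8

theorem main : S_CZ := by
  intro I _ g h hh d hsq F _ _ hc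
  obtain ⟨x, w, q, hxw, hdvd⟩ := hc
  have h1 : ∀ i, ∃ z : F, z ^ 2 = hom (h i) x w := fun i => by
    refine sq_of (h i) (hh i) d (hsq i) F x w q (dvd_trans ?_ hdvd)
    rw [Polynomial.map_mul, Polynomial.map_prod]
    exact Dvd.dvd.mul_left (Finset.dvd_prod_of_mem _ (mem_univ i)) _
  choose z hz using h1
  exact ⟨x, w, q, z, hxw, hdvd, hz⟩

end Pool.Agent.H11.EQ.CZ
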