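import Pool.Agent.H11.EQ.Stm

/-!
# EQ-LIFT (helper19): a rational point lifts to a covering, also a point over a zero of some `h i`
-/

set_option autoImplicit false

namespace Pool.Agent.H11.EQ.LIFT

open Polynomial Finset
open Pool.Agent.Q51.EL (hom CovPt)
open Pool.Agent.H11.EM.LIFT (norm_lin hom_eq hom_zero')
open Pool.Agent.Q58.EB (norm_one_add norm_ne_zero_of_coprime)

theorem cov_of (f : ℤ[X]) (d q : ℚ[X]) (x w : ℚ) (hxw : x ≠ 0 ∨ w ≠ 0)
    (hd : f.map (Int.castRingHom ℚ) ∣ C x - C w * X - d * q ^ 2) (F : Type) [Field F]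
    [CharZero F] : CovPt f d F := by
  refine ⟨(x : F), (w : F), q.map (Rat.castHom F), ?_, ?_⟩
  · rcases hxw with h | h
    · exact Or.inl (by exact_mod_cast h)
    · exact Or.inr (by exact_mod_cast h)
  · have h1 := Polynomial.map_dvd (Rat.castHom F) hd
    rw [Polynomial.map_map] at h1
    have h2 : (Rat.castHom F).comp (Int.castRingHom ℚ) = Int.castRingHom F := RingHom.ext_int _ _
    rw [h2] at h1
    simpa [Polynomial.map_sub, Polynomial.map_mul, Polynomial.map_pow] using h1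

theorem lin_eq (x w : ℚ) (hw : w ≠ 0) : (C x - C w * X : ℚ[X]) = -(C w) * (X - C (x / w)) := by
  have : (C x : ℚ[X]) = C w * C (x / w) := by
    rw [← C_mul, mul_div_cancel₀ _ hw]
  rw [this]
  ring

theorem cop_C (w : ℚ) (hw : w ≠ 0) (P : ℚ[X]) : IsCoprime P (-(C w : ℚ[X])) :=
  ⟨0, -C w⁻¹, by rw [zero_mul, zero_add, neg_mul_neg, ← C_mul, inv_mul_cancel₀ hw, C_1]⟩

theorem cop_lin (x w : ℚ) (hxw : x ≠ 0 ∨ w ≠ 0) (P : ℚ[X]) (hP : w ≠ 0 → P.eval (x / w) ≠ 0) :
    IsCoprime P (C x - C w * X) := by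
  by_cases hw : w = 0
  · subst hw
    have hx : x ≠ 0 := by
      rcases hxw with h | h
      · exact h
      · exact absurd rfl h
    rw [C_0, zero_mul, sub_zero]
    exact ⟨0, C x⁻¹, by rw [zero_mul, zero_add, ← C_mul, inv_mul_cancel₀ hx, C_1]⟩
  · rw [lin_eq x w hw]
    refine IsCoprime.mul_right (cop_C w hw P) ?_
    rw [isCoprime_comm, (irreducible_X_sub_C (x / w)).coprime_iff_not_dvd, dvd_iff_isRoot]
    exact hP hw

theorem cop_r (r : ℚ) (q : ℚ[X]) (hq : q.eval r ≠ 0) : IsCoprime (X - C r) q := by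
  rw [(irreducible_X_sub_C r).coprime_iff_not_dvd, dvd_iff_isRoot]
  exact hq

set_option maxHeartbeats 400000 in
theorem main : S_LIFT := by
  intro I _ g h _ hg1 hh hsep D x w y z hD hxw hy hz hg0
  classical
  have hinj := RingHom.injective_int (Int.castRingHom ℚ)
  have hgq0 : g.map (Int.castRingHom ℚ) ≠ 0 := by
    intro h0
    have := (Polynomial.map_eq_zero_iff hinj).1 h0
    rw [this] at hg1
    simp at hg1
  have hhq0 : ∀ i, (h i).map (Int.castRingHom ℚ) ≠ 0 := by
    intro i h0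
    have := (Polynomial.map_eq_zero_iff hinj).1 h0
    have h1 := (hh i).2
    rw [this] at h1
    simp at h1
  have hPf : (g * ∏ i, h i).map (Int.castRingHom ℚ) =
      g.map (Int.castRingHom ℚ) * ∏ i, (h i).map (Int.castRingHom ℚ) := by
    rw [Polynomial.map_mul, Polynomial.map_prod]
  have hgsq : IsSquare (((D * g.leadingCoeff : ℤ) : ℚ) *
      Algebra.norm ℚ (AdjoinRoot.mk (g.map (Int.castRingHom ℚ)) (C x - C w * X))) := by
    refine ⟨D * y, ?_⟩
    have h1 := norm_lin g hgq0 x w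
    push_cast
    rw [mul_assoc, h1, ← hy]
    ring
  have hhsq : ∀ i, IsSquare ((((h i).leadingCoeff : ℤ) : ℚ) *
      Algebra.norm ℚ (AdjoinRoot.mk ((h i).map (Int.castRingHom ℚ)) (C x - C w * X))) := by
    intro i
    refine ⟨z i, ?_⟩
    rw [norm_lin (h i) (hhq0 i) x w, ← hz i]
    ring
  by_cases hall : ∀ i, hom (h i) x w ≠ 0
  · -- no zero
    refine ⟨C x - C w * X, ?_, hgsq, hhsq, ?_, ?_⟩
    · refine cop_lin x w hxw _ fun hw => ?_
      rw [hPf, eval_mul, eval_prod]
      refine mul_ne_zero ?_ (Finset.prod_ne_zero_iff.2 fun i _ => ?_)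
      · intro h0
        apply hg0
        rw [hom_eq g x w hw, h0, mul_zero]
      · intro h0
        apply hall i
        rw [hom_eq (h i) x w hw, h0, mul_zero]
    · exact cov_of _ _ 1 x w hxw (by rw [one_pow, mul_one, sub_self]; exact dvd_zero _) ℝ
    · intro p _
      exact cov_of _ _ 1 x w hxw (by rw [one_pow, mul_one, sub_self]; exact dvd_zero _) ℚ_[p]
  · push Not at hall
    obtain ⟨j, hj⟩ := hall
    have hw : w ≠ 0 := by
      rintro rfl
      have hx : x ≠ 0 := by simpa using hxw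
      rw [hom_zero'] at hj
      have h1 : (h j).leadingCoeff ≠ 0 := by
        intro h0
        rw [leadingCoeff_eq_zero] at h0
        exact hhq0 j (by rw [h0, Polynomial.map_zero])
      exact mul_ne_zero (by exact_mod_cast h1) (pow_ne_zero _ hx) hj
    obtain ⟨r, hr⟩ : ∃ r, r = x / w := ⟨_, rfl⟩
    have hlin : (C x - C w * X : ℚ[X]) = -(C w) * (X - C r) := by rw [hr]; exact lin_eq x w hw
    have hjr : ((h j).map (Int.castRingHom ℚ)).eval r = 0 := by
      rw [hom_eq (h j) x w hw, ← hr] at hj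
      rcases mul_eq_zero.1 hj with h1 | h1
      · exact absurd h1 (pow_ne_zero _ hw)
      · exact h1
    obtain ⟨S, hS⟩ : X - C r ∣ (h j).map (Int.castRingHom ℚ) := dvd_iff_isRoot.2 hjr
    obtain ⟨T, hT⟩ : ∃ T : ℚ[X], T = g.map (Int.castRingHom ℚ) *
      ∏ i ∈ univ.erase j, (h i).map (Int.castRingHom ℚ) := ⟨_, rfl⟩
    have hP : (g * ∏ i, h i).map (Int.castRingHom ℚ) = (X - C r) * (S * T) := by
      rw [hPf, ← Finset.mul_prod_erase univ _ (Finset.mem_univ j), hS, hT]
      ring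
    have hcop : IsCoprime (X - C r) (S * T) := by
      rw [hP] at hsep
      exact hsep.isCoprime
    have hSTr : (S * T).eval r ≠ 0 := by
      intro h0
      exact ((irreducible_X_sub_C r).coprime_iff_not_dvd.1 hcop) (dvd_iff_isRoot.2 h0)
    have hSr : S.eval r ≠ 0 := by
      rw [eval_mul] at hSTr
      exact left_ne_zero_of_mul hSTr
    have hTr : T.eval r ≠ 0 := by
      rw [eval_mul] at hSTr
      exact right_ne_zero_of_mul hSTr
    have hlcj : (((h j).leadingCoeff : ℤ) : ℚ) ≠ 0 := by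
      have h1 : (h j).leadingCoeff ≠ 0 := by
        intro h0
        rw [leadingCoeff_eq_zero] at h0
        exact hhq0 j (by rw [h0, Polynomial.map_zero])
      exact_mod_cast h1
    obtain ⟨e, he⟩ : ∃ q : ℚ[X], q = C ((S * T).eval r)⁻¹ * (S * T) := ⟨_, rfl⟩
    have hee : e.eval r = 1 := by
      rw [he, eval_mul, eval_C, inv_mul_cancel₀ hSTr]
    -- the first element
    obtain ⟨a₁, ha₁⟩ : ∃ q : ℚ[X], q = (C x - C w * X) + e := ⟨_, rfl⟩
    have hev1 : a₁.eval r = 1 := by
      rw [ha₁, hlin, eval_add, hee]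
      simp
    have hcop1 : IsCoprime ((g * ∏ i, h i).map (Int.castRingHom ℚ)) a₁ := by
      rw [hP]
      refine IsCoprime.mul_left (cop_r r _ (by rw [hev1]; exact one_ne_zero)) ?_
      have h1 : IsCoprime (S * T) (-(C w) * (X - C r)) :=
        IsCoprime.mul_right (cop_C w hw _) hcop.symm
      rw [ha₁, hlin, he]
      exact IsCoprime.add_mul_right_right h1 _
    have hjP : (h j).map (Int.castRingHom ℚ) ∣ (g * ∏ i, h i).map (Int.castRingHom ℚ) := by
      rw [hP, hS]
      exact ⟨T, by ring⟩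
    obtain ⟨κ, hκ⟩ : ∃ q : ℚ, q = Algebra.norm ℚ (AdjoinRoot.mk ((h j).map (Int.castRingHom ℚ)) a₁) := ⟨_, rfl⟩
    have hκ0 : κ ≠ 0 := by
      rw [hκ]; exact norm_ne_zero_of_coprime _ _ (hcop1.of_isCoprime_of_dvd_left hjP)
    obtain ⟨u, hu⟩ : ∃ q : ℚ, q = (((h j).leadingCoeff : ℤ) : ℚ) * κ := ⟨_, rfl⟩
    have hu0 : u ≠ 0 := by rw [hu]; exact mul_ne_zero hlcj hκ0
    obtain ⟨b, hb⟩ : ∃ q : ℚ[X], q = 1 + C (u - 1) * e := ⟨_, rfl⟩
    have hevb : b.eval r = u := by
      rw [hb, eval_add, eval_mul, hee, eval_C, eval_one]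
      ring
    have hcopb : IsCoprime ((g * ∏ i, h i).map (Int.castRingHom ℚ)) b := by
      rw [hP]
      refine IsCoprime.mul_left (cop_r r _ (by rw [hevb]; exact hu0)) ?_
      rw [hb, he, ← mul_assoc]
      exact IsCoprime.add_mul_right_right isCoprime_one_right _
    have hnb : Algebra.norm ℚ (AdjoinRoot.mk ((h j).map (Int.castRingHom ℚ)) b) = u := by
      have h1 : AdjoinRoot.mk ((h j).map (Int.castRingHom ℚ)) b =
          AdjoinRoot.mk ((h j).map (Int.castRingHom ℚ))
            (1 + C (u - 1) * (C (S.eval r)⁻¹ * S)) := by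
        rw [AdjoinRoot.mk_eq_mk, hS]
        obtain ⟨m, hm⟩ : X - C r ∣ C (T.eval r)⁻¹ * T - 1 := by
          rw [dvd_iff_isRoot, IsRoot.def, eval_sub, eval_mul, eval_C, inv_mul_cancel₀ hTr, eval_one,
            sub_self]
        refine ⟨C (u - 1) * C (S.eval r)⁻¹ * m, ?_⟩
        have h2 : e = C (S.eval r)⁻¹ * S * (C (T.eval r)⁻¹ * T) := by
          rw [he, eval_mul, mul_inv, C_mul]
          ring
        rw [hb, h2]
        have h3 : C (T.eval r)⁻¹ * T = (X - C r) * m + 1 := by rw [← hm]; ring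
        rw [h3]
        ring
      rw [h1, hS]
      exact norm_one_add S r u hSr
    have hd : a₁ * b - (C x - C w * X) = (S * T) * (C ((S * T).eval r)⁻¹ *
        (1 + C (u - 1) * a₁)) := by
      rw [hb, ha₁, he]
      ring
    have hmk : ∀ Q : ℚ[X], Q ∣ S * T → AdjoinRoot.mk Q (a₁ * b) =
        AdjoinRoot.mk Q (C x - C w * X) := by
      intro Q hQ
      rw [AdjoinRoot.mk_eq_mk, hd]
      exact hQ.mul_right _
    have hdvdq : (g * ∏ i, h i).map (Int.castRingHom ℚ) ∣
        C x - C w * X - a₁ * b * (1 - e) ^ 2 := by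
      rw [hP]
      refine hcop.mul_dvd ?_ ?_
      · rw [dvd_iff_isRoot, IsRoot.def, hlin]
        simp [hee]
      · have h1 : C x - C w * X - a₁ * b * (1 - e) ^ 2 =
            -(a₁ * b - (C x - C w * X)) + a₁ * b * (2 - e) * e := by ring
        rw [h1]
        refine dvd_add ?_ ?_
        · rw [dvd_neg, hd]
          exact dvd_mul_right _ _
        · rw [he]
          exact ⟨a₁ * b * (2 - C (eval r (S * T))⁻¹ * (S * T)) * C (eval r (S * T))⁻¹, by ring⟩
    refine ⟨a₁ * b, hcop1.mul_right hcopb, ?_, ?_, ?_, ?_⟩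
    · rw [hmk _ ⟨S * ∏ i ∈ univ.erase j, (h i).map (Int.castRingHom ℚ), by rw [hT]; ring⟩]
      exact hgsq
    · intro i
      by_cases hij : i = j
      · subst hij
        rw [map_mul, map_mul, hnb, ← hκ, ← mul_assoc, ← hu]
        exact ⟨u, rfl⟩
      · rw [hmk _ ?_]
        · exact hhsq i
        · have h1 : (h i).map (Int.castRingHom ℚ) ∣
              ∏ i ∈ univ.erase j, (h i).map (Int.castRingHom ℚ) :=
            Finset.dvd_prod_of_mem _ (Finset.mem_erase.2 ⟨hij, Finset.mem_univ _⟩)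
          rw [hT]
          exact (h1.mul_left _).mul_left _
    · exact cov_of _ _ (1 - e) x w hxw hdvdq ℝ
    · intro p _
      exact cov_of _ _ (1 - e) x w hxw hdvdq ℚ_[p]

end Pool.Agent.H11.EQ.LIFT
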