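import Pool.Agent.H11.EQ.Stm

/-!
# EQ-NRM (helper19): a prime that divides `D` exactly once divides one of the norms
-/

set_option autoImplicit false

namespace Pool.Agent.H11.EQ.NRM

open Polynomial NumberField IsDedekindDomain Finset
open Pool.Agent.H11.EM (PL In)

theorem main : S_NRM := by
  intro K _ G L _ _ α D a q hD hq hqD hqa _hα hsq
  by_contra hcon
  push Not at hcon
  have hqp : Prime (q : ℤ) := Nat.prime_iff_prime_int.1 hq
  have hn : ∀ k ∈ G, ¬ (q : ℤ) ∣ Algebra.norm ℤ (α k) := by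
    intro k hk hdvd
    have h1 : q ∣ (Ideal.span ({α k} : Set (𝓞 (L k)))).absNorm := by
      rw [Ideal.absNorm_span_singleton]
      exact Int.natCast_dvd.1 hdvd
    obtain ⟨P, hP, hPq, hPα⟩ := Ideal.exists_isMaximal_dvd_of_dvd_absNorm' hq _ h1
    have hqP : ((q : ℕ) : 𝓞 (L k)) ∈ P := by
      have h2 : (q : ℤ) ∈ P.under ℤ := by
        rw [hPq]; exact Ideal.mem_span_singleton_self _
      have h3 : algebraMap ℤ (𝓞 (L k)) (q : ℤ) ∈ P := h2
      simpa using h3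
    have hPbot : P ≠ ⊥ := by
      rintro rfl
      rw [Ideal.mem_bot] at hqP
      exact hq.ne_zero (by exact_mod_cast hqP)
    have hαP : α k ∈ P := Ideal.dvd_span_singleton.1 hPα
    exact hcon ⟨k, ⟨P, hP.isPrime, hPbot⟩, hqP⟩ hk hαP
  have h1 : ((D * a : ℤ) : ℚ) * ∏ k ∈ G, Algebra.norm ℚ (α k : L k) =
      ((D * (a * ∏ k ∈ G, Algebra.norm ℤ (α k)) : ℤ) : ℚ) := by
    push_cast
    rw [Finset.prod_congr rfl fun k _ => (Algebra.coe_norm_int (α k)).symm]
    ring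
  rw [h1, Rat.isSquare_intCast_iff] at hsq
  obtain ⟨s, hs⟩ := hsq
  have h2 : ¬ (q : ℤ) ∣ a * ∏ k ∈ G, Algebra.norm ℤ (α k) := by
    intro h
    rcases hqp.dvd_mul.1 h with h | h
    · exact hqa h
    · obtain ⟨k, hk, hk2⟩ := (hqp.dvd_finsetProd_iff _).1 h
      exact hn k hk hk2
  have h3 : (q : ℤ) ∣ s := by
    have h4 : (q : ℤ) ∣ s * s := by rw [← hs]; exact hqD.mul_right _
    rcases hqp.dvd_mul.1 h4 with h | h <;> exact h
  have h4 : (q : ℤ) ^ 2 ∣ D * (a * ∏ k ∈ G, Algebra.norm ℤ (α k)) := by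
    rw [hs, ← sq]
    exact pow_dvd_pow_of_dvd h3 2
  have h5 := hqp.pow_dvd_of_dvd_mul_right 2 h2 h4
  rw [sq] at h5
  exact hqp.not_isUnit (hD _ h5)

end Pool.Agent.H11.EQ.NRM
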