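import Pool.Agent.H11.EQ.Main
import Pool.Agent.H11.EQ.LIFT
import Pool.Agent.H11.EQ.NRM
import Pool.Agent.H11.EQ.CZ
import Pool.Agent.H11.EN.All

/-! Project EQ: assembly. -/

set_option autoImplicit false

namespace Pool.Agent.H11.EQ

open Polynomial NumberField IsDedekindDomain Finset Filter Topology
open Pool.Agent.H11.EC (ELS CurvePt low solv weil)
open Pool.Agent.H11.EN (HG t_corem)

theorem main_thm (I : Type) [Fintype I] [Nonempty I] (g : ℤ[X]) (h : I → ℤ[X])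
    (h4 : g.natDegree = 4)
    (hh : ∀ i, Even (h i).natDegree ∧ 1 ≤ (h i).natDegree)
    (hsep : ((g * ∏ i, h i).map (Int.castRingHom ℚ)).Separable) (hHG : HG g h) :
    (∀ D : ℤ, D ≠ 0 → CurvePt g h D ℚ → DS g h D) ∧
    (∀ D : ℤ, D ≠ 0 → DS g h D → ELS g h D) ∧
    (∃ δ C : ℝ, 0 < δ ∧ ∀ X : ℕ, 3 ≤ X →
      ({D : ℤ | D.natAbs ≤ X ∧ Squarefree D ∧ DS g h D}.ncard : ℝ) ≤
        C * Real.log X ^ (-δ) *
        ({D : ℤ | D.natAbs ≤ X ∧ Squarefree D ∧ ELS g h D}.ncard : ℝ)) ∧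
    ((∃ D0 : ℤ, Squarefree D0 ∧ ELS g h D0) → ∀ᶠ X : ℕ in atTop, (X : ℝ) / Real.log X ≤
      ({D : ℤ | D.natAbs ≤ X ∧ Squarefree D ∧ ELS g h D}.ncard : ℝ)) :=
  main NRM.main LIFT.main CZ.main Pool.Agent.H11.EN.FACT.main t_corem
    (Pool.Agent.H11.EN.GOOD.main Pool.Agent.H11.EN.DYAD.main) Pool.Agent.H11.EC.Mean.main
    (low (solv weil)) I g h h4 hh hsep hHG

end Pool.Agent.H11.EQ
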