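import Pool.Agent.H11.EC.DESC

/-! Project EQ: the descent, with more information (copy of `Pool/Agent/H11/EC/DESC.lean`). -/

set_option autoImplicit false
set_option linter.unusedSectionVars false

namespace Pool.Agent.H11.EQ

open Polynomial NumberField IsDedekindDomain Pool.Agent.Q239.EL
open Pool.Agent.Q51.EL (Abv Par N1 pr Setup hom)
open Pool.Agent.H11.EM (PL In Ty1 Ty2 box cls dg NN tau Good Sys S_SIEVE S_CNT rootm sdm chm onefield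
  one_le_N1)
open Pool.Agent.H11.EC (SR CovPt scm')

/-- the descent -/
theorem desc2 (K I : Type) [Fintype K] [Nonempty K] [Fintype I] (f : K → ℤ[X]) (h : I → ℤ[X])
    (L : K → Type) [∀ k, Field (L k)] [∀ k, NumberField (L k)] (θ : ∀ k, L k) (hs : Sys f L θ)
    (hev : ∀ i, Even (h i).natDegree) (heven : Even (∏ k, f k).natDegree)
    (hn3 : 3 ≤ (∏ k, f k).natDegree) (t : ∀ k, 𝓞 (L k))
    (ht : ∀ k, (t k : L k) = (∏ k, f k).leadingCoeff * θ k) :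
    ∃ (B : ℕ) (C : ℝ), B ≠ 0 ∧ 0 < C ∧ ∀ D : ℤ, Squarefree D →
    ∀ d : ℚ[X], (∀ k, aeval (θ k) d ≠ 0) →
      IsSquare (((D * (∏ k, f k).leadingCoeff : ℤ) : ℚ) * ∏ k, Algebra.norm ℚ (aeval (θ k) d)) →
      (∀ (p : ℕ) [Fact p.Prime], CovPt (∏ k, f k) h d ℚ_[p]) →
    ∃ (α : ∀ k, 𝓞 (L k)) (S : K → Finset ℕ) (c : ℚ) (η : ∀ k, L k), c ≠ 0 ∧ (∀ k, η k ≠ 0) ∧
      (∀ k, (α k : L k) = (c : L k) * aeval (θ k) d * η k ^ 2) ∧ (∀ k, α k ≠ 0) ∧ Good B t α ∧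
      (∀ l : ℕ, l.Prime → ¬ l ∣ B → ∀ u : PL L l, In α u → l ∈ S u.1) ∧
      IsSquare (((D * (∏ k, f k).leadingCoeff : ℤ) : ℚ) * ∏ k, Algebra.norm ℚ (α k : L k)) ∧
      (∀ k, ∀ q ∈ S k, q.Prime ∧ ¬ q ∣ B ∧ k ∈ SR f h q) ∧ (∏ k, ∏ q ∈ S k, q) ∣ D.natAbs ∧
      (∀ q : ℕ, q.Prime → ¬ q ∣ B → q ∣ D.natAbs → ∃ k, q ∈ S k) ∧
      ∀ k, ∀ σ : L k →+* ℂ, ‖σ (α k : L k)‖ ≤
        C * ((∏ q ∈ S k, q : ℕ) : ℝ) ^ ((1 : ℝ) / Module.finrank ℚ (L k)) := by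
  classical
  have hun := fun k => Pool.Agent.Q239.EL.un (L k)
  have hcl := fun k => Pool.Agent.Q239.EL.cl (L k)
  choose Cu hCu hun' using hun
  choose Bc Cc hBc hCc hcl' using hcl
  obtain ⟨Bs, hBs, hsc'⟩ := scm' hs heven hev
  obtain ⟨Bd, hBd, hsd'⟩ := sdm hs hn3
  obtain ⟨Br, hBr, -, hBr', -⟩ := rootm hs
  set B : ℕ := (∏ k, Bc k) * Bs * Bd * Br with hB
  have hB0 : B ≠ 0 := mul_ne_zero (mul_ne_zero (mul_ne_zero
    (Finset.prod_ne_zero_iff.2 fun k _ => hBc k) hBs) hBd) hBr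
  have hBcB : ∀ k, Bc k ∣ B := fun k => Dvd.dvd.mul_right (Dvd.dvd.mul_right (Dvd.dvd.mul_right
    (Finset.dvd_prod_of_mem _ (Finset.mem_univ k)) _) _) _
  have h1f := fun k => onefield (hCu k) (hCc k) hB0 (hBcB k) (hun' k) (hcl' k)
  choose C0 hC0 h1f' using h1f
  refine ⟨B, ∑ k, C0 k, hB0, Finset.sum_pos (fun k _ => hC0 k) Finset.univ_nonempty, ?_⟩
  intro D hD d hd hsq hcov
  have hD0 : D ≠ 0 := hD.ne_zero
  set δ : ∀ k, L k := fun k => aeval (θ k) d with hδ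
  have hB1 : ∀ l : ℕ, ¬ l ∣ B → ¬ l ∣ Bs ∧ ¬ l ∣ Bd ∧ ¬ l ∣ Br := fun l h =>
    ⟨fun h1 => h (Dvd.dvd.mul_right (Dvd.dvd.mul_right (Dvd.dvd.mul_left h1 _) _) _),
      fun h1 => h (Dvd.dvd.mul_right (Dvd.dvd.mul_left h1 _) _),
      fun h1 => h (Dvd.dvd.mul_left h1 _)⟩
  have hBmem : ∀ (l : ℕ) (u : PL L l), l.Prime → ¬ l ∣ B → (B : 𝓞 (L u.1)) ∉ u.2.1.asIdeal := by
    intro l u hl hm h
    apply hm
    have h1 := (int_mem_iff hl u.2.2 (B : ℤ)).mp (by exact_mod_cast h)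
    exact_mod_cast h1
  -- the parities
  have hSC : ∀ l : ℕ, l.Prime → ¬ l ∣ B → ∃ e : ℕ, e < 2 ∧
      ((¬ (l : ℤ) ∣ D ∧ ∀ u : PL L l, Par u.2.1 (δ u.1) e) ∨
      ((l : ℤ) ∣ D ∧ ∃ u0 : PL L l, Ideal.absNorm u0.2.1.asIdeal = l ∧ u0.1 ∈ SR f h l ∧
        Par u0.2.1 (δ u0.1) (e + 1) ∧ ∀ u : PL L l, u ≠ u0 → Par u.2.1 (δ u.1) e)) := by
    intro l hl hlB
    have : Fact l.Prime := ⟨hl⟩
    obtain ⟨e, he⟩ := hsc' l (hB1 l hlB).1 d D hd hD hsq (hcov l)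
    have h1 : ∀ (u : PL L l), Par u.2.1 (δ u.1) e →
        Par u.2.1 (δ u.1) ((e % 2).toNat : ℕ) := fun u h =>
      par_congr h ⟨e / 2, by omega⟩
    have h2 : ∀ (u : PL L l), Par u.2.1 (δ u.1) (e + 1) →
        Par u.2.1 (δ u.1) (((e % 2).toNat : ℕ) + 1) := fun u h =>
      par_congr h ⟨e / 2, by omega⟩
    refine ⟨(e % 2).toNat, by omega, ?_⟩
    rcases he with ⟨h3, h4⟩ | ⟨h3, u0, h5, hsr, h6, h7⟩
    · exact Or.inl ⟨h3, fun u => h1 u (h4 u)⟩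
    · exact Or.inr ⟨h3, u0, h5, hsr, h2 u0 h6, fun u hne => h1 u (h7 u hne)⟩
  let ee : ℕ → ℕ := fun l => if h : l.Prime ∧ ¬ l ∣ B then (hSC l h.1 h.2).choose else 0
  have hee : ∀ l (hl : l.Prime) (hlB : ¬ l ∣ B), ee l < 2 ∧
      ((¬ (l : ℤ) ∣ D ∧ ∀ u : PL L l, Par u.2.1 (δ u.1) (ee l)) ∨
      ((l : ℤ) ∣ D ∧ ∃ u0 : PL L l, Ideal.absNorm u0.2.1.asIdeal = l ∧ u0.1 ∈ SR f h l ∧
        Par u0.2.1 (δ u0.1) (ee l + 1) ∧ ∀ u : PL L l, u ≠ u0 → Par u.2.1 (δ u.1) (ee l))) := by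
    intro l hl hlB
    have h1 : ee l = (hSC l hl hlB).choose := dif_pos ⟨hl, hlB⟩
    rw [h1]
    exact (hSC l hl hlB).choose_spec
  let k0 : K := Classical.arbitrary K
  have hfin : {l : ℕ | l.Prime ∧ ¬ l ∣ B ∧ ee l = 1}.Finite := by
    refine ((D.natAbs.divisors.finite_toSet).union ((supp_finite (hd k0)).image bl)).subset ?_
    rintro l ⟨hl, hlB, he⟩
    have : Fact l.Prime := ⟨hl⟩
    rcases (hee l hl hlB).2 with ⟨h3, h4⟩ | ⟨h3, -⟩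
    · right
      obtain ⟨v, hv⟩ := exists_above (L := L k0) (hBr' l hl (hB1 l hlB).2.2 k0)
      refine ⟨v, ?_, prime_unique (bl_prime v) hl (bl_abv v) hv⟩
      intro h5
      have h6 := h4 ⟨k0, v, hv⟩
      rw [he] at h6
      obtain ⟨k, hk⟩ := h6
      rw [show (⟨k0, v, hv⟩ : PL L l).2.1.valuation (L k0) (δ k0) = 1 from h5,
        ← WithZero.exp_zero, WithZero.exp_inj] at hk
      push_cast at hk
      omega
    · left
      rw [Finset.mem_coe, Nat.mem_divisors]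
      exact ⟨Int.natCast_dvd.mp h3, Int.natAbs_ne_zero.mpr hD0⟩
  set S1 := hfin.toFinset with hS1
  have hS1m : ∀ l, l ∈ S1 ↔ l.Prime ∧ ¬ l ∣ B ∧ ee l = 1 := fun l => hfin.mem_toFinset
  set c : ℕ := ∏ q ∈ S1, q with hc
  have hc0 : c ≠ 0 := Finset.prod_ne_zero_iff.mpr fun q hq => ((hS1m q).mp hq).1.ne_zero
  have hcL : ∀ k, (c : L k) ≠ 0 := fun k => by exact_mod_cast hc0
  have hvl : ∀ (l : ℕ) (u : PL L l), l.Prime → ¬ l ∣ B →
      u.2.1.valuation (L u.1) (l : L u.1) = WithZero.exp (-1 : ℤ) := by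
    intro l u hl hlB
    have : Fact l.Prime := ⟨hl⟩
    have hl0 : (l : 𝓞 (L u.1)) ≠ 0 := by exact_mod_cast hl.ne_zero
    have h1 := val_int u.2.1 hl0
    rw [nat_coe, mu_l (hBr' l hl (hB1 l hlB).2.2 u.1) u.2.2] at h1
    exact_mod_cast h1
  have hvc : ∀ (l : ℕ) (u : PL L l), l.Prime → ¬ l ∣ B →
      u.2.1.valuation (L u.1) (c : L u.1) = WithZero.exp (-(ee l : ℤ)) := by
    intro l u hl hlB
    rw [hc, val_prod_primes hl u.2.2 (hvl l u hl hlB) S1 fun q hq => ((hS1m q).mp hq).1]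
    congr 2
    have := (hee l hl hlB).1
    by_cases h : ee l = 1
    · rw [if_pos ((hS1m l).mpr ⟨hl, hlB, h⟩), h]
      rfl
    · rw [if_neg (fun h2 => h ((hS1m l).mp h2).2.2)]
      have : ee l = 0 := by omega
      rw [this]
      rfl
  have hkey : ∀ l : ℕ, l.Prime → ¬ l ∣ B →
      ((¬ (l : ℤ) ∣ D ∧ ∀ u : PL L l, Par u.2.1 ((c : L u.1) * δ u.1) 0) ∨
      ((l : ℤ) ∣ D ∧ ∃ u0 : PL L l, Ideal.absNorm u0.2.1.asIdeal = l ∧ u0.1 ∈ SR f h l ∧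
        Par u0.2.1 ((c : L u0.1) * δ u0.1) 1 ∧ ∀ u : PL L l, u ≠ u0 →
          Par u.2.1 ((c : L u.1) * δ u.1) 0)) := by
    intro l hl hlB
    have h1 : ∀ u : PL L l, Par u.2.1 (δ u.1) (ee l) → Par u.2.1 ((c : L u.1) * δ u.1) 0 := by
      intro u h
      have := par_mul (hvc l u hl hlB) h
      rwa [add_neg_cancel] at this
    rcases (hee l hl hlB).2 with ⟨h3, h4⟩ | ⟨h3, u0, h5, hsr, h6, h7⟩
    · exact Or.inl ⟨h3, fun u => h1 u (h4 u)⟩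
    · refine Or.inr ⟨h3, u0, h5, hsr, ?_, fun u hne => h1 u (h7 u hne)⟩
      have := par_mul (hvc l u0 hl hlB) h6
      rwa [show (ee l : ℤ) + 1 + -(ee l : ℤ) = 1 by ring] at this
  have hcδ : ∀ k, (c : L k) * δ k ≠ 0 := fun k => mul_ne_zero (hcL k) (hd k)
  -- the sets `S`
  have hSfin : ∀ k, {v : HeightOneSpectrum (𝓞 (L k)) | (B : 𝓞 (L k)) ∉ v.asIdeal ∧
      Par v ((c : L k) * δ k) 1}.Finite := by
    intro k
    refine (supp_finite (hcδ k)).subset ?_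
    rintro v ⟨-, hv⟩ h5
    obtain ⟨k, hk⟩ := hv
    rw [h5, ← WithZero.exp_zero, WithZero.exp_inj] at hk
    omega
  let S0 : ∀ k, Finset (HeightOneSpectrum (𝓞 (L k))) := fun k => (hSfin k).toFinset
  have hSm : ∀ k v, v ∈ S0 k ↔ (B : 𝓞 (L k)) ∉ v.asIdeal ∧ Par v ((c : L k) * δ k) 1 := fun k v =>
    (hSfin k).mem_toFinset
  have hblB : ∀ (k : K) (v : HeightOneSpectrum (𝓞 (L k))), (B : 𝓞 (L k)) ∉ v.asIdeal →
      ¬ bl v ∣ B := by
    rintro k v hv2 ⟨m, hm⟩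
    apply hv2
    rw [hm, Nat.cast_mul]
    exact Ideal.mul_mem_right _ _ (bl_abv v)
  -- the element of `S0 k` above a prime
  have hS0 : ∀ k, ∀ v ∈ S0 k, ¬ bl v ∣ B ∧ ((bl v : ℕ) : ℤ) ∣ D ∧
      (Ideal.absNorm v.asIdeal = bl v ∧ k ∈ SR f h (bl v)) ∧ ∀ k', ∀ v' ∈ S0 k', bl v' = bl v →
        (⟨k', v'⟩ : Σ k, HeightOneSpectrum (𝓞 (L k))) = ⟨k, v⟩ := by
    intro k v hv
    obtain ⟨hv1, hv2⟩ := (hSm k v).1 hv
    have h2 := hblB k v hv1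
    rcases hkey (bl v) (bl_prime v) h2 with ⟨-, h4⟩ | ⟨h3, u0, h5, hsr, h6, h7⟩
    · exact absurd hv2 (fun h => par_excl (h4 ⟨k, v, bl_abv v⟩) h)
    · have h8 : ∀ (k' : K) (v' : HeightOneSpectrum (𝓞 (L k'))) (hv' : Abv v' (bl v)),
          v' ∈ S0 k' → (⟨k', v', hv'⟩ : PL L (bl v)) = u0 := by
        intro k' v' hv' hm
        by_contra hne
        exact par_excl (h7 _ hne) ((hSm k' v').1 hm).2
      have h9 := h8 k v (bl_abv v) hv
      refine ⟨h2, h3, ?_, ?_⟩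
      · rw [← h9] at h5 hsr
        exact ⟨h5, hsr⟩
      · intro k' v' hv' hbl
        have h10 := h8 k' v' (by rw [← hbl]; exact bl_abv v') hv'
        rw [← h9] at h10
        exact congrArg (fun u : PL L (bl v) => (⟨u.1, u.2.1⟩ : Σ k, HeightOneSpectrum (𝓞 (L k)))) h10
  let S : K → Finset ℕ := fun k => (S0 k).image bl
  have hSinj : ∀ k, ∀ v ∈ S0 k, ∀ v' ∈ S0 k, bl v = bl v' → v = v' := by
    intro k v hv v' hv' h
    have := (hS0 k v' hv').2.2.2 k v hv h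
    simpa using this
  have hSprod : ∀ k, ∏ v ∈ S0 k, Ideal.absNorm v.asIdeal = ∏ q ∈ S k, q := by
    intro k
    rw [Finset.prod_image (fun v hv v' hv' h => hSinj k v hv v' hv' h)]
    exact Finset.prod_congr rfl fun v hv => (hS0 k v hv).2.2.1.1
  -- the elements
  have hel := fun k => h1f' k ((c : L k) * δ k) (S0 k) (hcδ k) (hSm k)
  choose α η hα hη hαη hval hbd using hel
  obtain ⟨d', hd'⟩ := hs.crt fun k => (α k : L k)
  obtain ⟨η', hη'⟩ := hs.crt η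
  have hcQ : (c : ℚ) ≠ 0 := by exact_mod_cast hc0
  have hcov' : ∀ (p : ℕ) [Fact p.Prime], Pool.Agent.Q51.EL.CovPt (∏ k, f k) d' ℚ_[p] := by
    intro p hp
    refine chm hs d d' η' (c : ℚ) hcQ (fun k => by rw [hη']; exact hη k) (fun k => ?_) ℚ_[p] (hcov p).old
    rw [hd', hη', hαη, Rat.cast_natCast]
  refine ⟨α, S, (c : ℚ), η, hcQ, hη, fun k => ?_, hα, ?_, ?_, ?_, ?_, ?_, ?_, ?_⟩
  · rw [hαη, Rat.cast_natCast]
  · intro l hl hlB
    have : Fact l.Prime := ⟨hl⟩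
    have hv1 : ∀ u : PL L l, Par u.2.1 ((c : L u.1) * δ u.1) 0 →
        u.2.1.valuation (L u.1) (α u.1 : L u.1) = 1 := fun u h =>
      (hval u.1 u.2.1 (hBmem l u hl hlB)).2 h
    rcases hkey l hl hlB with ⟨h3, h4⟩ | ⟨h3, u0, h5, hsr, h6, h7⟩
    · left
      intro u
      exact (HeightOneSpectrum.valuation_eq_one_iff_notMem u.2.1).mp (hv1 u (h4 u))
    · right
      have hv0 : u0.2.1.valuation (L u0.1) (α u0.1 : L u0.1) = WithZero.exp (-1 : ℤ) :=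
        (hval u0.1 u0.2.1 (hBmem l u0 hl hlB)).1 h6
      have hother : ∀ u : PL L l, u ≠ u0 →
          u.2.1.valuation (L u.1) (α u.1 : L u.1) = 1 := fun u hne => hv1 u (h7 u hne)
      refine ⟨u0, h5, ?_, ?_, ?_⟩
      · apply (HeightOneSpectrum.valuation_lt_one_iff_mem (K := L u0.1) u0.2.1 (α u0.1)).mp
        have h8 : u0.2.1.valuation (L u0.1) (α u0.1 : L u0.1) < 1 := by
          rw [hv0, ← WithZero.exp_zero, WithZero.exp_lt_exp]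
          norm_num
        exact h8
      · intro u hne
        exact (HeightOneSpectrum.valuation_eq_one_iff_notMem u.2.1).mp (hother u hne)
      · exact hsd' t ht l (hB1 l hlB).2.1 d' α hd' (hcov' l) u0 h5 hv0 hother
  · intro l hl hlB u hu
    rcases hkey l hl hlB with ⟨h3, h4⟩ | ⟨h3, u0, h5, hsr, h6, h7⟩
    · exfalso
      exact (HeightOneSpectrum.valuation_eq_one_iff_notMem u.2.1).mp
        ((hval u.1 u.2.1 (hBmem l u hl hlB)).2 (h4 u)) hu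
    · by_cases hne : u = u0
      · rw [hne]
        exact Finset.mem_image.mpr ⟨u0.2.1, (hSm _ _).2 ⟨hBmem l u0 hl hlB, h6⟩,
          prime_unique (bl_prime _) hl (bl_abv _) u0.2.2⟩
      · exfalso
        exact (HeightOneSpectrum.valuation_eq_one_iff_notMem u.2.1).mp
          ((hval u.1 u.2.1 (hBmem l u hl hlB)).2 (h7 u hne)) hu
  · obtain ⟨s, hs'⟩ := hsq
    obtain ⟨m, hm⟩ := heven
    rw [← hs.deg] at hm
    refine ⟨s * ((c : ℚ) ^ m * ∏ k, Algebra.norm ℚ (η k)), ?_⟩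
    have hNc : ∀ k, Algebra.norm ℚ (c : L k) = (c : ℚ) ^ Module.finrank ℚ (L k) := by
      intro k
      have := Algebra.norm_algebraMap (S := L k) (c : ℚ)
      rwa [map_natCast] at this
    have h1 : ∏ k, Algebra.norm ℚ (α k : L k) = (c : ℚ) ^ dg L *
        (∏ k, Algebra.norm ℚ (δ k)) * (∏ k, Algebra.norm ℚ (η k)) ^ 2 := by
      unfold dg
      rw [← Finset.prod_pow_eq_pow_sum, ← Finset.prod_pow, ← Finset.prod_mul_distrib,
        ← Finset.prod_mul_distrib]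
      refine Finset.prod_congr rfl fun k _ => ?_
      rw [hαη, map_mul, map_mul, map_pow, hNc]
    rw [h1, hm]
    calc ((D * (∏ k, f k).leadingCoeff : ℤ) : ℚ) * ((c : ℚ) ^ (m + m) *
          (∏ k, Algebra.norm ℚ (δ k)) * (∏ k, Algebra.norm ℚ (η k)) ^ 2)
        = (((D * (∏ k, f k).leadingCoeff : ℤ) : ℚ) * ∏ k, Algebra.norm ℚ (δ k)) * ((c : ℚ) ^ m *
          ∏ k, Algebra.norm ℚ (η k)) ^ 2 := by
          rw [pow_add]; ring
      _ = _ := by rw [hs']; ring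
  · intro k q hq
    obtain ⟨v, hv, rfl⟩ := Finset.mem_image.mp hq
    exact ⟨bl_prime v, (hS0 k v hv).1, (hS0 k v hv).2.2.1.2⟩
  · have hdis : (↑(Finset.univ : Finset K) : Set K).PairwiseDisjoint S := by
      intro k _ k' _ hne
      rw [Function.onFun, Finset.disjoint_left]
      intro q hq hq'
      obtain ⟨v, hv, rfl⟩ := Finset.mem_image.mp hq
      obtain ⟨v', hv', hbl⟩ := Finset.mem_image.mp hq'
      exact hne (congrArg Sigma.fst ((hS0 k v hv).2.2.2 k' v' hv' hbl)).symm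
    rw [← Finset.prod_biUnion hdis]
    apply Finset.prod_primes_dvd
    · intro q hq
      obtain ⟨k, -, hq⟩ := Finset.mem_biUnion.1 hq
      obtain ⟨v, hv, rfl⟩ := Finset.mem_image.mp hq
      exact (bl_prime v).prime
    · intro q hq
      obtain ⟨k, -, hq⟩ := Finset.mem_biUnion.1 hq
      obtain ⟨v, hv, rfl⟩ := Finset.mem_image.mp hq
      exact Int.natCast_dvd.mp (hS0 k v hv).2.1
  · intro q hq hqB hqD
    rcases hkey q hq hqB with ⟨h3, -⟩ | ⟨h3, u0, h5, hsr, h6, -⟩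
    · exact absurd (Int.natCast_dvd.mpr hqD) h3
    · refine ⟨u0.1, Finset.mem_image.mpr ⟨u0.2.1, (hSm _ _).2 ⟨hBmem q u0 hq hqB, h6⟩, ?_⟩⟩
      exact prime_unique (bl_prime _) hq (bl_abv _) u0.2.2
  · intro k σ
    have h1 := hbd k σ
    rw [hSprod] at h1
    refine h1.trans (mul_le_mul_of_nonneg_right ?_ (by positivity))
    exact Finset.single_le_sum (f := C0) (fun k _ => (hC0 k).le) (Finset.mem_univ k)

end Pool.Agent.H11.EQ
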