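import Pool.Agent.H11.EC.SPL
import Pool.Agent.H11.EC.Fin1

/-! Project EQ: many primes split completely and a given factor has a suitable zero (copy of `split_of` in
`Pool/Agent/H11/EC/SPL.lean`). -/

set_option autoImplicit false
set_option linter.unusedSectionVars false

namespace Pool.Agent.H11.EQ

open Polynomial NumberField IsDedekindDomain Finset
open Pool.Agent.H11
open Pool.Agent.Q51.EL (Abv Par N1 pr Setup hom S_M1 S_RAM)
open Pool.Agent.H11.EM (PL In Ty1 Ty2 box cls dg NN tau Good Sys S_SIEVE S_CNT)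
open Pool.Agent.H11.EC (SR LO sr_of_hom)

open Classical in
theorem split_k (h2 : EM.S_M2) (h' : S_RAM) (K I : Type) [Fintype K] [Fintype I] (f : K → ℤ[X])
    (h : I → ℤ[X]) (L : K → Type) [∀ k, Field (L k)] [∀ k, NumberField (L k)] (θ : ∀ k, L k)
    (hs : Sys f L θ) (k0 : K) : ∃ c C : ℝ, 0 < c ∧ ∀ Y : ℝ, 3 ≤ Y →
    c * Real.log (Real.log Y) - C ≤
      ∑ l ∈ (pr Y).filter (fun l => NN L l = dg L ∧ k0 ∈ SR f h l), (1 : ℝ) / l := by
  obtain ⟨θ0, hθ0⟩ : ∃ θ : AlgebraicClosure ℚ, aeval θ (f k0) = 0 := by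
    obtain ⟨x, hx⟩ := IsAlgClosed.exists_aeval_eq_zero (AlgebraicClosure ℚ)
      ((f k0).map (Int.castRingHom ℚ)) (Polynomial.degree_pos_of_irreducible (hs.set k0).irr).ne'
    refine ⟨x, ?_⟩
    rw [← hx]
    exact (aeval_map_algebraMap ℚ x (f k0)).symm
  choose s hs' using fun i => IsAlgClosed.exists_pow_nat_eq (aeval θ0 (h i)) (n := 2) two_pos
  obtain ⟨M, _, _, _, j, hj, -⟩ := Pool.Agent.W5h36.EL.exL2 ({θ0} ∪ Set.range s)
    ((Set.finite_singleton _).union (Set.finite_range s))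
  obtain ⟨θM, hθM⟩ := hj θ0 (Or.inl rfl)
  choose sM hsM using fun i => hj (s i) (Or.inr ⟨i, rfl⟩)
  have hjp : ∀ p : ℤ[X], j (aeval θM p) = aeval θ0 p := by
    intro p
    rw [← hθM, aeval_def, aeval_def, Polynomial.hom_eval₂]
    congr 1
    exact RingHom.ext_int _ _
  obtain ⟨D, hD, hD'⟩ := sr_of_hom (f k0) h θM sM
    (by apply j.injective; rw [hjp, hθ0, map_zero])
    (fun i => by apply j.injective; rw [hjp, map_pow, hsM, hs'])
  obtain ⟨c, C, hc, hC⟩ := h2 (Option K) (LO M L)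
  refine ⟨c, C + D.divisors.card, hc, fun Y hY => ?_⟩
  have h1 : (pr Y).filter (fun l => NN (LO M L) l = dg (LO M L)) ⊆
      (pr Y).filter (fun l => NN L l = dg L ∧ k0 ∈ SR f h l) ∪ D.divisors := by
    intro l hl
    obtain ⟨hl1, hl2⟩ := mem_filter.1 hl
    have hlp : l.Prime := (mem_filter.1 hl1).2
    by_cases hlD : l ∣ D
    · exact mem_union_right _ (Nat.mem_divisors.2 ⟨hlD, hD⟩)
    · refine mem_union_left _ (mem_filter.2 ⟨hl1, ?_⟩)
      have e1 : NN (LO M L) l = N1 M l + NN L l := by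
        unfold NN
        rw [Fintype.sum_option]
        rfl
      have e2 : dg (LO M L) = Module.finrank ℚ M + dg L := by
        unfold dg
        rw [Fintype.sum_option]
        rfl
      rw [e1, e2] at hl2
      have h3 : N1 M l ≤ Module.finrank ℚ M := (h' M).2 l hlp
      have h4 : NN L l ≤ dg L := Finset.sum_le_sum fun k _ => (h' (L k)).2 l hlp
      have h5 : 0 < Module.finrank ℚ M := Module.finrank_pos
      refine ⟨by omega, ?_⟩
      have h6 : N1 M l ≠ 0 := by omega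
      rw [Pool.Agent.Q154.EL.N1_eq hlp] at h6
      obtain ⟨r, hr, hr'⟩ := hD' l hlp hlD (Nat.card_ne_zero.1 h6).1
      exact mem_filter.2 ⟨mem_univ _, r, hr, hr'⟩
  have h2' := hC Y hY
  have h3 := Finset.sum_le_sum_of_subset_of_nonneg (f := fun q : ℕ => (1 : ℝ) / q) h1
    (fun _ _ _ => by positivity)
  have h4 := Finset.sum_union_inter (s₁ := (pr Y).filter (fun l => NN L l = dg L ∧
    k0 ∈ SR f h l)) (s₂ := D.divisors) (f := fun q : ℕ => (1 : ℝ) / q)
  have h5 : 0 ≤ ∑ q ∈ (pr Y).filter (fun l => NN L l = dg L ∧ k0 ∈ SR f h l) ∩ D.divisors,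
    (1 : ℝ) / q := Finset.sum_nonneg fun _ _ => by positivity
  have h6 : ∑ q ∈ D.divisors, (1 : ℝ) / q ≤ (D.divisors.card : ℝ) := by
    rw [Finset.card_eq_sum_ones]
    push_cast
    refine Finset.sum_le_sum fun q hq => ?_
    have hq1 : (1 : ℝ) ≤ q := by exact_mod_cast Nat.pos_of_mem_divisors hq
    rw [div_le_one (by linarith)]
    exact hq1
  linarith

end Pool.Agent.H11.EQ
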