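import Pool.Agent.H11.EN.Fac

/-!
# Project EQ (helper11): twisted double coverings with a quotient of genus one

`g` of degree four, `h i` (`i ∈ I`, `I` nonempty) of even degrees, `P = g ∏ h i`; the curves
`X_D : D y² = G(x, w)`, `z i ² = H i (x, w)`. The 2-coverings of the genus one curve `D y² = G(x, w)` are not
enough, but the 2-coverings `x - θ w = δ η²`, `δ, η ∈ ℚ[X] / (P)` of `D v² = P(x, w)` are: the part of `δ` in
`ℚ[X] / (h i)` is in a finite set.
-/

set_option autoImplicit false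

namespace Pool.Agent.H11.EQ

open Polynomial NumberField IsDedekindDomain Finset
open Pool.Agent.Q51.EL (hom)
open Pool.Agent.H11.EM (PL In)

/-- the descent set is not empty -/
def DS {I : Type} [Fintype I] (g : ℤ[X]) (h : I → ℤ[X]) (D : ℤ) : Prop :=
  ∃ d : ℚ[X], IsCoprime ((g * ∏ i, h i).map (Int.castRingHom ℚ)) d ∧
    IsSquare (((D * g.leadingCoeff : ℤ) : ℚ) *
      Algebra.norm ℚ (AdjoinRoot.mk (g.map (Int.castRingHom ℚ)) d)) ∧
    (∀ i, IsSquare ((((h i).leadingCoeff : ℤ) : ℚ) *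
      Algebra.norm ℚ (AdjoinRoot.mk ((h i).map (Int.castRingHom ℚ)) d))) ∧
    Pool.Agent.Q51.EL.CovPt (g * ∏ i, h i) d ℝ ∧
    ∀ (p : ℕ) [Fact p.Prime], Pool.Agent.Q51.EL.CovPt (g * ∏ i, h i) d ℚ_[p]

/-- JOB EQ-LIFT. A rational point of `X_D` lifts.
Proof. `P = g ∏ h i`. If `P(x, w) ≠ 0` take `d = C x - C w * X` (and the point `(x, w, 1)`), as in `lift'` of
`Pool/Agent/H11/EC/Lift.lean`; the norms are `hom g x w` etc. up to the leading coefficients
(`EM.LIFT.norm_lin`). If `P(x, w) = 0` then `w ≠ 0` and `r = x / w` is a zero of exactly one `h i`, and it is a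
simple one; compare with `Pool/Agent/H11/EM/LIFT.lean` (the case of a zero) for `P`: there are `d`, `q` with
`P ∣ C x - C w * X - d * q ^ 2`, `d` prime to `P`, and `D * lc(P) * N_P(d)` a square; then `N(d)` satisfies the
conditions for `g` and the `h j`, `j ≠ i` (take norms, `N(q) ≠ 0` there), and so for `h i`, since the norm of
`ℚ[X] / (P)` is the product of the norms. Or choose `d`, `q` by the Chinese remainder theorem for
`X - C r` and `P / (X - C r)`. -/
def S_LIFT : Prop := ∀ (I : Type) [Fintype I] (g : ℤ[X]) (h : I → ℤ[X]), Even g.natDegree →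
  1 ≤ g.natDegree → (∀ i, Even (h i).natDegree ∧ 1 ≤ (h i).natDegree) →
  ((g * ∏ i, h i).map (Int.castRingHom ℚ)).Separable →
  ∀ (D : ℤ) (x w y : ℚ) (z : I → ℚ), D ≠ 0 → (x ≠ 0 ∨ w ≠ 0) → (D : ℚ) * y ^ 2 = hom g x w →
  (∀ i, z i ^ 2 = hom (h i) x w) → hom g x w ≠ 0 → DS g h D

/-- JOB EQ-CZ. A covering lies over `Z`. Proof: as `s2e'` in `Pool/Agent/H11/EC/Lift.lean`, for each `h i`
(with `D = 1`), which divides `g ∏ h i`; the point `(x, w)` is the same for all `i`. -/
def S_CZ : Prop := ∀ (I : Type) [Fintype I] (g : ℤ[X]) (h : I → ℤ[X]), (∀ i, h i ≠ 0) →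
  ∀ d : ℚ[X], (∀ i, IsSquare ((((h i).leadingCoeff : ℤ) : ℚ) *
      Algebra.norm ℚ (AdjoinRoot.mk ((h i).map (Int.castRingHom ℚ)) d))) →
  ∀ (F : Type) [Field F] [CharZero F], Pool.Agent.Q51.EL.CovPt (g * ∏ i, h i) d F →
    Pool.Agent.H11.EC.CovPt (g * ∏ i, h i) h d F

/-- JOB EQ-NRM. A prime that divides `D` exactly once divides one of the norms.
Proof: `Algebra.norm ℚ (α k) = (Algebra.norm ℤ (α k) : ℚ)` (`Algebra.coe_norm_int`). If no prime above `q`
contains `α k` then `q` does not divide `Algebra.norm ℤ (α k)` (its absolute value is `Ideal.absNorm` of the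
ideal `(α k)`; a rational prime that divides the norm of an ideal is contained in a prime ideal that contains
the ideal). If this were so for all `k ∈ G`, `q` would divide the integer `D * a * ∏ ..` exactly once, and it
would not be a square. -/
def S_NRM : Prop := ∀ (K : Type) [Fintype K] (G : Finset K) (L : K → Type) [∀ k, Field (L k)]
  [∀ k, NumberField (L k)] (α : ∀ k, 𝓞 (L k)) (D a : ℤ) (q : ℕ), Squarefree D → q.Prime →
  (q : ℤ) ∣ D → ¬ (q : ℤ) ∣ a → (∀ k ∈ G, α k ≠ 0) →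
  IsSquare (((D * a : ℤ) : ℚ) * ∏ k ∈ G, Algebra.norm ℚ (α k : L k)) →
  ∃ u : PL L q, u.1 ∈ G ∧ In α u

end Pool.Agent.H11.EQ
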