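import Pool.Agent.H11.EN.Core
import Pool.Agent.H11.EQ.Stm
import Pool.Agent.H11.EQ.Desc
import Pool.Agent.H11.EQ.Split

/-! Project EQ: the data of the descent. -/

set_option autoImplicit false
set_option linter.unusedSectionVars false

namespace Pool.Agent.H11.EQ

open Polynomial NumberField IsDedekindDomain Finset
open Pool.Agent.Q51.EL (Abv Par N1 pr Setup hom)
open Pool.Agent.H11.EM (PL In Ty1 Ty2 box cls dg NN tau Good Sys ty)
open Pool.Agent.H11.EC (SR CovPt)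
open Pool.Agent.H11.EN (nA S_COREM)

variable {K I : Type} [Fintype K] [DecidableEq K] [Fintype I] {f : K → ℤ[X]} {h : I → ℤ[X]}
  {L : K → Type} [∀ k, Field (L k)] [∀ k, NumberField (L k)] {θ : ∀ k, L k}

/-- the factors in `G` with a suitable zero modulo `q` -/
noncomputable def RR (f : K → ℤ[X]) (h : I → ℤ[X]) (G : Finset K) (q : ℕ) : Finset K :=
  (SR f h q) ∩ G

/-- the descent set in terms of the fields -/
def NS (f : K → ℤ[X]) (h : I → ℤ[X]) (θ : ∀ k, L k) (G : Finset K) (D : ℤ) : Prop :=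
  ∃ d : ℚ[X], (∀ k, aeval (θ k) d ≠ 0) ∧
    IsSquare (((D * (∏ k ∈ G, f k).leadingCoeff : ℤ) : ℚ) *
      ∏ k ∈ G, Algebra.norm ℚ (aeval (θ k) d)) ∧
    IsSquare (((D * (∏ k, f k).leadingCoeff : ℤ) : ℚ) * ∏ k, Algebra.norm ℚ (aeval (θ k) d)) ∧
    ∀ (p : ℕ) [Fact p.Prime], CovPt (∏ k, f k) h d ℚ_[p]

open Classical in
/-- the sum of `1 / q` -/
noncomputable def GR (f : K → ℤ[X]) (h : I → ℤ[X]) (G : Finset K) (Y : ℝ) : ℝ :=
  ∑ q ∈ (pr Y).filter (fun q => q ∈ {q : ℕ | (RR f h G q).Nonempty}), (1 : ℝ) / q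

open Classical in
/-- the data of the descent -/
theorem data [Nonempty K] (hNRM : S_NRM) (hCORE : S_COREM) (hs : Sys f L θ)
    (hevh : ∀ i, Even (h i).natDegree) (hev : Even (∏ k, f k).natDegree)
    (h6 : 6 ≤ (∏ k, f k).natDegree) (G : Finset K) (hG : G.Nonempty) (hGev : Even (nA L G)) :
    ∃ (B : ℕ) (C1 C2 c : ℝ) (T : Set (∀ k, 𝓞 (L k))) (A : ℤ → ∀ k, 𝓞 (L k)) (P : ℤ → K → ℕ),
      B ≠ 0 ∧ 0 < C1 ∧ 0 < C2 ∧ 0 < c ∧
      Set.InjOn A {D : ℤ | Squarefree D ∧ NS f h θ G D} ∧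
      (∀ D : ℤ, Squarefree D → NS f h θ G D →
        (∀ k, P D k ≠ 0) ∧ ∏ k, P D k ≤ D.natAbs ∧ A D ∈ T ∧
        (∀ k, ∀ σ : L k →+* ℂ, ‖σ (A D k : L k)‖ ≤
          C1 * (P D k : ℝ) ^ ((1 : ℝ) / Module.finrank ℚ (L k))) ∧
        (∀ q : ℕ, q.Prime → q ∣ D.natAbs → ¬ q ∣ B → ∃ k, k ∈ RR f h G q ∧ q ∣ P D k) ∧
        ∀ k, k ∉ G → P D k ≤ B) ∧
      (∀ (Z : ℝ) (Y : K → ℝ), 3 ≤ Z → (∀ k, 1 ≤ Y k) →
        3 ≤ nA L (univ.filter (fun k => Z ≤ Y k)) → (box Y T).Finite ∧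
        (((box Y T).ncard : ℕ) : ℝ) ≤ C2 * (∏ k, Y k ^ Module.finrank ℚ (L k)) *
          Real.exp (GR f h G Z) * Real.log Z ^ (-c) * (∏ k, (1 + Real.log (min (Y k) Z)))⁻¹) := by
  set g : ℤ[X] := ∏ k, f k with hg
  have hint : ∀ k, IsIntegral ℤ ((g.leadingCoeff : L k) * θ k) := by
    intro k
    have h1 : IsIntegral ℤ (g.leadingCoeff • θ k) := isIntegral_leadingCoeff_smul g (θ k) (hs.root k)
    rwa [zsmul_eq_mul] at h1
  let t : ∀ k, 𝓞 (L k) := fun k => ⟨(g.leadingCoeff : L k) * θ k, hint k⟩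
  obtain ⟨B0, C1, hB0, hC1, hD⟩ := desc2 K I f h L θ hs hevh hev (by rw [← hg]; omega) t (fun k => rfl)
  obtain ⟨a, ha⟩ : ∃ a : ℤ, a = (∏ k ∈ G, f k).leadingCoeff := ⟨_, rfl⟩
  have ha0 : a ≠ 0 := by
    rw [ha]
    refine leadingCoeff_ne_zero.2 (Finset.prod_ne_zero_iff.2 fun k _ h0 => ?_)
    exact hs.prod_ne (Finset.prod_eq_zero (mem_univ k) h0)
  set B : ℕ := B0 * a.natAbs with hB
  have hBne : B ≠ 0 := mul_ne_zero hB0 (Int.natAbs_ne_zero.2 ha0)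
  have hBB : ∀ l : ℕ, ¬ l ∣ B → ¬ l ∣ B0 ∧ ¬ (l : ℤ) ∣ a := fun l hl =>
    ⟨fun h1 => hl (Dvd.dvd.mul_right h1 _), fun h1 => hl (Dvd.dvd.mul_left (Int.natCast_dvd.1 h1) _)⟩
  set Sq : Set ℕ := {q : ℕ | (RR f h G q).Nonempty} with hSq
  obtain ⟨c, C2, hc, hC2, hcore⟩ := hCORE K L (by rw [hs.deg, ← hg]; exact hev)
    (by rw [hs.deg, ← hg]; omega) B hBne Sq (by
    obtain ⟨k0, hk0⟩ := hG
    obtain ⟨c, C, hc, h1⟩ := split_k
      (Pool.Agent.H29.EM.m2_of W54.ChTor.main Pool.Agent.Q247.EL.m1 Pool.Agent.Q91.EL.ram)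
      Pool.Agent.Q91.EL.ram K I f h L θ hs k0
    refine ⟨c, C, hc, fun Y hY => (h1 Y hY).trans ?_⟩
    refine Finset.sum_le_sum_of_subset_of_nonneg ?_ (fun _ _ _ => by positivity)
    intro l hl
    simp only [Finset.mem_filter] at hl ⊢
    obtain ⟨hl1, hl2, hl3⟩ := hl
    exact ⟨hl1, hl2, ⟨k0, mem_inter.2 ⟨hl3, hk0⟩⟩⟩)
  have hα : ∀ D : ℤ, Squarefree D → NS f h θ G D → ∃ (α : ∀ k, 𝓞 (L k)) (S : K → Finset ℕ),
      (∀ k, α k ≠ 0) ∧ Good B t α ∧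
      (∀ l : ℕ, l.Prime → ¬ l ∣ B → (∃ u : PL L l, In α u) → (RR f h G l).Nonempty) ∧
      IsSquare (((D * g.leadingCoeff : ℤ) : ℚ) * ∏ k, Algebra.norm ℚ (α k : L k)) ∧
      (∀ k, ∀ q ∈ S k, q.Prime) ∧ (∏ k, ∏ q ∈ S k, q) ∣ D.natAbs ∧
      (∀ q : ℕ, q.Prime → ¬ q ∣ B → q ∣ D.natAbs → ∃ k, k ∈ RR f h G q ∧ q ∈ S k) ∧
      (∀ k, k ∉ G → ∏ q ∈ S k, q ≤ B) ∧
      ∀ k, ∀ σ : L k →+* ℂ, ‖σ (α k : L k)‖ ≤
        C1 * ((∏ q ∈ S k, q : ℕ) : ℝ) ^ ((1 : ℝ) / Module.finrank ℚ (L k)) := by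
    rintro D hDs ⟨d, hd, hsq1, hsq2, hp⟩
    obtain ⟨α, S, c', η, hc', hη, hαe, hα0, hgood, hIn, hsq3, hS, hSD, hDS, hbd⟩ :=
      hD D hDs d hd hsq2 hp
    -- the norm condition for the factors in `G`
    have hsqG : IsSquare (((D * a : ℤ) : ℚ) * ∏ k ∈ G, Algebra.norm ℚ (α k : L k)) := by
      obtain ⟨s, hs'⟩ := hsq1
      obtain ⟨m, hm⟩ := hGev
      refine ⟨s * (c' ^ m * ∏ k ∈ G, Algebra.norm ℚ (η k)), ?_⟩
      have hNc : ∀ k, Algebra.norm ℚ (c' : L k) = c' ^ Module.finrank ℚ (L k) := by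
        intro k
        have := Algebra.norm_algebraMap (S := L k) c'
        simpa using this
      have h1 : ∏ k ∈ G, Algebra.norm ℚ (α k : L k) = c' ^ nA L G *
          (∏ k ∈ G, Algebra.norm ℚ (aeval (θ k) d)) * (∏ k ∈ G, Algebra.norm ℚ (η k)) ^ 2 := by
        unfold nA
        rw [← Finset.prod_pow_eq_pow_sum, ← Finset.prod_pow, ← Finset.prod_mul_distrib,
          ← Finset.prod_mul_distrib]
        refine Finset.prod_congr rfl fun k _ => ?_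
        rw [hαe, map_mul, map_mul, map_pow, hNc]
      rw [h1, hm, ha]
      calc ((D * (∏ k ∈ G, f k).leadingCoeff : ℤ) : ℚ) * (c' ^ (m + m) *
            (∏ k ∈ G, Algebra.norm ℚ (aeval (θ k) d)) * (∏ k ∈ G, Algebra.norm ℚ (η k)) ^ 2)
          = (((D * (∏ k ∈ G, f k).leadingCoeff : ℤ) : ℚ) *
            ∏ k ∈ G, Algebra.norm ℚ (aeval (θ k) d)) * (c' ^ m *
            ∏ k ∈ G, Algebra.norm ℚ (η k)) ^ 2 := by
            rw [pow_add]; ring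
        _ = _ := by rw [hs']; ring
    have hSl : ∀ k, ∀ q ∈ S k, q ∣ D.natAbs := fun k q hq =>
      ((Finset.dvd_prod_of_mem (fun q : ℕ => q) hq).trans
        (Finset.dvd_prod_of_mem (fun k => ∏ q ∈ S k, q) (mem_univ k))).trans hSD
    have hkey : ∀ q : ℕ, q.Prime → ¬ q ∣ B → q ∣ D.natAbs → ∃ k, k ∈ RR f h G q ∧ q ∈ S k := by
      intro q hq hqB hqD
      obtain ⟨u, hu, hIu⟩ := hNRM K G L α D a q hDs hq (Int.natCast_dvd.2 hqD) (hBB q hqB).2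
        (fun k _ => hα0 k) hsqG
      have h1 := hIn q hq (hBB q hqB).1 u hIu
      exact ⟨u.1, mem_inter.2 ⟨(hS u.1 q h1).2.2, hu⟩, h1⟩
    refine ⟨α, S, hα0, fun l hl hlB => hgood l hl (hBB l hlB).1, ?_, hsq3,
      fun k q hq => (hS k q hq).1, hSD, hkey, ?_, hbd⟩
    · rintro l hl hlB ⟨u, hu⟩
      have h1 := hIn l hl (hBB l hlB).1 u hu
      obtain ⟨k, hk, -⟩ := hkey l hl hlB (hSl _ _ h1)
      exact ⟨k, hk⟩
    · intro k hk
      have h1 : ∏ q ∈ S k, q ∣ B := by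
        apply Finset.prod_primes_dvd
        · intro q hq
          exact (hS k q hq).1.prime
        · intro q hq
          by_contra hqB
          obtain ⟨k', hk', hq'⟩ := hkey q (hS k q hq).1 hqB (hSl k q hq)
          have hne : k ≠ k' := by
            rintro rfl
            exact hk (mem_inter.1 hk').2
          have h2 : q * q ∣ D.natAbs := by
            refine (mul_dvd_mul (Finset.dvd_prod_of_mem (fun q : ℕ => q) hq)
              (Finset.dvd_prod_of_mem (fun q : ℕ => q) hq')).trans ?_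
            refine dvd_trans ?_ hSD
            have h3 : ∏ k ∈ ({k, k'} : Finset K), ∏ q ∈ S k, q = (∏ q ∈ S k, q) * ∏ q ∈ S k', q :=
              Finset.prod_pair hne
            rw [← h3]
            exact Finset.prod_dvd_prod_of_subset _ _ _ (subset_univ _)
          have h3 := Int.squarefree_natAbs.2 hDs q h2
          exact (hS k q hq).1.one_lt.ne' (Nat.isUnit_iff.1 h3)
      exact Nat.le_of_dvd (Nat.pos_of_ne_zero hBne) h1
  choose! A S hA0 hAG hAR hAsq hS1 hS2 hS3 hS4 hAσ using hα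
  refine ⟨B, C1, C2, c, {α | Good B t α ∧ (∀ l : ℕ, l.Prime → ¬ l ∣ B → (∃ u : PL L l, In α u) →
    (RR f h G l).Nonempty) ∧ ∀ k, α k ≠ 0}, A, fun D k => ∏ q ∈ S D k, q, hBne, hC1, hC2, hc,
    ?_, ?_, ?_⟩
  · rintro D ⟨hDs, hDS⟩ D' ⟨hDs', hDS'⟩ hAA
    have h1 := hAsq D hDs hDS
    have h2 := hAsq D' hDs' hDS'
    have hAA' : A D = A D' := hAA
    rw [← hAA'] at h2
    have hN0 : ∏ k, Algebra.norm ℚ (A D k : L k) ≠ 0 := by
      refine Finset.prod_ne_zero_iff.2 fun k _ => ?_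
      rw [Algebra.norm_ne_zero_iff]
      exact_mod_cast (hA0 D hDs hDS k)
    have hg0 : ((g.leadingCoeff : ℤ) : ℚ) ≠ 0 := by
      exact_mod_cast leadingCoeff_ne_zero.2 hs.prod_ne
    apply Pool.Agent.Q51.EL.sqf_eq hDs hDs'
    obtain ⟨u, hu⟩ := h1
    obtain ⟨w, hw⟩ := h2
    set N := ∏ k, Algebra.norm ℚ (A D k : L k) with hN
    refine ⟨u * w / ((g.leadingCoeff : ℤ) * N), ?_⟩
    field_simp
    have h3 : ((D * D' : ℤ) : ℚ) * (((g.leadingCoeff : ℤ) : ℚ) ^ 2 * N ^ 2) =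
        (u * u) * (w * w) := by
      rw [← hu, ← hw]; push_cast; ring
    linear_combination h3
  · intro D hDs hDS
    have hD0 : D.natAbs ≠ 0 := Int.natAbs_ne_zero.2 hDs.ne_zero
    refine ⟨fun k => ?_, ?_, ⟨hAG D hDs hDS, hAR D hDs hDS, hA0 D hDs hDS⟩, hAσ D hDs hDS, ?_,
      hS4 D hDs hDS⟩
    · exact Finset.prod_ne_zero_iff.2 fun q hq => (hS1 D hDs hDS k q hq).ne_zero
    · exact Nat.le_of_dvd (Nat.pos_of_ne_zero hD0) (hS2 D hDs hDS)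
    · intro q hq hqD hqB
      obtain ⟨k', hk', hk''⟩ := hS3 D hDs hDS q hq hqB hqD
      exact ⟨k', hk', Finset.dvd_prod_of_mem _ hk''⟩
  · intro Z Y hZ hY hY3
    obtain ⟨h1, h2⟩ := hcore {α | Good B t α ∧ (∀ l : ℕ, l.Prime → ¬ l ∣ B →
      (∃ u : PL L l, In α u) → (RR f h G l).Nonempty) ∧ ∀ k, α k ≠ 0} (fun l hl hlB => by
        obtain ⟨h3, h4⟩ := ty K L B t l hl hlB
        refine ⟨fun β hβ => h3 β hβ.1, fun β hβ β' hβ' => h4 β hβ.1 β' hβ'.1, ?_⟩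
        intro hA β hβ u hu
        exact hA (hβ.2.1 l hl hlB ⟨u, hu⟩)) (fun β hβ => hβ.2.2) Z Y hZ hY hY3
    refine ⟨h1, h2.trans (le_of_eq ?_)⟩
    unfold GR
    congr!

end Pool.Agent.H11.EQ
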