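import Pool.Agent.H11.EQ.Up
import Pool.Agent.H11.EN.Fac

/-! Project EQ: the main theorem. -/

set_option autoImplicit false
set_option linter.unusedSectionVars false

namespace Pool.Agent.H11.EQ

open Polynomial NumberField IsDedekindDomain Finset Filter Topology
open Pool.Agent.Q51.EL (Abv Par N1 pr Setup hom)
open Pool.Agent.H11.EM (Sys fin_nat exists_setup dg pr_eq)
open Pool.Agent.H11.EC (SR SQ ELS CurvePt Hyp S_MEAN S_LOW s2e')
open Pool.Agent.H11.EN (nA S_COREM S_GOOD S_FACT HG HH HH_of Fix one_SQ aeval_cast)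
open Pool.Agent.W401.Cheb (M)
open Pool.Agent.W262.RK (PS)

theorem mem_SR {K I : Type} [Fintype K] (f : K → ℤ[X]) (h : I → ℤ[X]) (p : ℕ) (k : K) :
    k ∈ SR f h p ↔ ∃ r : ℤ, (p : ℤ) ∣ (f k).eval r ∧
      ∀ i, ∃ s : ℤ, (p : ℤ) ∣ s ^ 2 - (h i).eval r := by
  classical
  unfold SR
  rw [mem_filter]
  exact ⟨fun h => h.2, fun h => ⟨mem_univ _, h⟩⟩

theorem mem_SQ {K I : Type} [Fintype K] (f : K → ℤ[X]) (h : I → ℤ[X])
    (σ : AlgebraicClosure ℚ ≃ₐ[ℚ] AlgebraicClosure ℚ) (k : K) :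
    k ∈ SQ f h σ ↔ ∃ θ : AlgebraicClosure ℚ, aeval θ (f k) = 0 ∧ σ θ = θ ∧
      ∀ i, ∃ s : AlgebraicClosure ℚ, s ^ 2 = aeval θ (h i) ∧ σ s = s := by
  classical
  unfold SQ
  rw [mem_filter]
  exact ⟨fun h => h.2, fun h => ⟨mem_univ _, h⟩⟩

/-- the densities and the bounds -/
theorem sums {K K1 I : Type} [Fintype K] [DecidableEq K] [Fintype K1] [Nonempty K1] [Fintype I]
    (hMEAN : S_MEAN) (hLOW : S_LOW) (f : K → ℤ[X]) (f1 : K1 → ℤ[X]) (h : I → ℤ[X])
    (e : K1 → K) (he : ∀ k, f (e k) = f1 k) (hf : ∀ k, f k ≠ 0) (hyp : Hyp f1 h) :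
    ∃ ν : Finset K → ℝ, (∀ T, 0 ≤ ν T) ∧ (∑ T, ν T = 1) ∧ (∀ σ, 0 < ν (SQ f h σ)) ∧
      (∀ D0 : ℤ, Squarefree D0 → ELS (∏ k, f1 k) h D0 → ∀ β : ℝ, 0 < β →
        β < ∑ T ∈ univ.filter (fun T : Finset K => (T ∩ univ.image e).Nonempty), ν T →
        ∃ c : ℝ, 0 < c ∧ ∀ᶠ X : ℕ in atTop, c * X * (Real.log X) ^ (β - 1) ≤
          ({d : ℤ | d.natAbs ≤ X ∧ Squarefree d ∧ ELS (∏ k, f1 k) h d}.ncard : ℝ)) ∧
      ∀ (T : Finset (Finset K)) (η : ℝ), 0 < η → ∃ C : ℝ, ∀ Y : ℝ, 3 ≤ Y →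
        ∑ q ∈ (pr Y).filter (fun q => SR f h q ∈ T), (1 : ℝ) / q ≤
          (∑ t ∈ T, ν t + η) * Real.log (Real.log Y) + C := by
  classical
  obtain ⟨ν, h0, h1, h2, h3⟩ := hMEAN K I f h hf
  refine ⟨ν, h0, h1, h3, fun D0 hD0 hels β hβ hβ' => ?_, fun T η hη => ?_⟩
  · set ρ : ℝ := ∑ T ∈ univ.filter (fun T : Finset K => (T ∩ univ.image e).Nonempty), ν T with hρ
    have hne : ∀ p : ℕ, (SR f h p ∩ univ.image e).Nonempty ↔ (SR f1 h p).Nonempty := by
      intro p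
      constructor
      · rintro ⟨x, hx⟩
        obtain ⟨hx1, hx2⟩ := mem_inter.1 hx
        obtain ⟨k, -, rfl⟩ := mem_image.1 hx2
        refine ⟨k, (mem_SR f1 h p k).2 ?_⟩
        rw [← he]
        exact (mem_SR f h p _).1 hx1
      · rintro ⟨k, hk⟩
        refine ⟨e k, mem_inter.2 ⟨(mem_SR f h p _).2 ?_, mem_image.2 ⟨k, mem_univ _, rfl⟩⟩⟩
        rw [he]
        exact (mem_SR f1 h p k).1 hk
    have h4 : Tendsto (M fun p => if p ∈ {p : ℕ | p.Prime ∧ (SR f1 h p).Nonempty} then (1 : ℝ) else 0)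
        atTop (𝓝 ρ) := by
      have h3 := h2 (fun T => if (T ∩ univ.image e).Nonempty then 1 else 0)
      have e1 : ∑ T, (if (T ∩ univ.image e).Nonempty then (1 : ℝ) else 0) * ν T = ρ := by
        rw [hρ, Finset.sum_filter]
        refine sum_congr rfl fun T _ => ?_
        split_ifs <;> simp
      rw [e1] at h3
      refine Pool.Agent.W401.Cheb.M_congr (D := 1) one_pos (fun p hp _ => ?_) h3
      by_cases h5 : (SR f1 h p).Nonempty
      · have h6 : p ∈ {p : ℕ | p.Prime ∧ (SR f1 h p).Nonempty} := ⟨hp, h5⟩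
        rw [if_pos h6, if_pos ((hne p).2 h5)]
      · have h6 : p ∉ {p : ℕ | p.Prime ∧ (SR f1 h p).Nonempty} := fun h6 => h5 h6.2
        rw [if_neg h6, if_neg fun h7 => h5 ((hne p).1 h7)]
    have hρ1 : ρ ≤ 1 := by
      rw [← h1]
      exact sum_le_sum_of_subset_of_nonneg (filter_subset _ _) fun T _ _ => h0 T
    obtain ⟨C, hC⟩ := Pool.Agent.W5h36.EL.dens_low {p : ℕ | p.Prime ∧ (SR f1 h p).Nonempty}
      (fun p hp => hp.1) β hβ.le ((h4.eventually (lt_mem_nhds hβ')).mono fun N hN =>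
        hN.le.trans (le_of_eq (by congr!)))
    refine hLOW K1 I f1 h hyp D0 hD0 hels β C hβ (by linarith) fun N => (hC N).trans
      (le_of_eq ?_)
    congr!
  · have h4 := h2 (fun t => if t ∈ T then 1 else 0)
    have e1 : ∑ t, (if t ∈ T then (1 : ℝ) else 0) * ν t = ∑ t ∈ T, ν t := by
      simp only [ite_mul, one_mul, zero_mul]
      rw [← Finset.sum_filter]
      congr 1
      ext t
      simp
    rw [e1] at h4
    have hα : 0 ≤ ∑ t ∈ T, ν t + η := add_nonneg (sum_nonneg fun t _ => h0 t) hη.le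
    obtain ⟨C, hC⟩ := Pool.Agent.W5h36.EL.dens_up (fun p => if SR f h p ∈ T then (1 : ℝ) else 0) 1
      (∑ t ∈ T, ν t + η) (fun p => by split_ifs <;> norm_num) (fun p => by split_ifs <;> norm_num)
      ((h4.eventually (gt_mem_nhds (by linarith : ∑ t ∈ T, ν t < ∑ t ∈ T, ν t + η))).mono
        fun N hN => hN.le)
    refine ⟨C, fun Y hY => ?_⟩
    have hN : 3 ≤ ⌊Y⌋₊ := Nat.le_floor (by exact_mod_cast hY)
    have h5 := hC ⌊Y⌋₊ hN
    have h6 : ∑ q ∈ (pr Y).filter (fun q => SR f h q ∈ T), (1 : ℝ) / q =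
        ∑ p ∈ PS 0 ⌊Y⌋₊, (if SR f h p ∈ T then (1 : ℝ) else 0) / p := by
      rw [Finset.sum_filter, pr_eq]
      refine Finset.sum_congr rfl fun p _ => ?_
      split_ifs <;> simp
    rw [h6]
    refine h5.trans ?_
    have h7 : (1 : ℝ) < Real.log ⌊Y⌋₊ := Pool.Agent.W262.TW.one_lt_log hN
    have h8 : Real.log (Real.log ⌊Y⌋₊) ≤ Real.log (Real.log Y) := by
      apply Real.log_le_log (by linarith)
      apply Real.log_le_log (by positivity)
      exact Nat.floor_le (by linarith)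
    have := mul_le_mul_of_nonneg_left h8 hα
    linarith

theorem core (hNRM : S_NRM) (hCORE : S_COREM) (hGOOD : S_GOOD) (hMEAN : S_MEAN) (hLOW : S_LOW)
    (K K1 I : Type) [Fintype K] [DecidableEq K] [Fintype K1] [Nonempty K1] [Fintype I]
    (f : K → ℤ[X]) (f1 : K1 → ℤ[X]) (h : I → ℤ[X]) (e : K1 → K) (he : ∀ k, f (e k) = f1 k)
    (hinj : Function.Injective e)
    (hirr : ∀ k, Irreducible ((f k).map (Int.castRingHom ℚ)))
    (hna : ∀ k l, k ≠ l →
      ¬ Associated ((f k).map (Int.castRingHom ℚ)) ((f l).map (Int.castRingHom ℚ)))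
    (hyp : Hyp f1 h) (hev : Even (∏ k, f k).natDegree) (h6 : 6 ≤ (∏ k, f k).natDegree)
    (hH : HH f1 h)
    (hNS : ∀ (L : K → Type) [∀ k, Field (L k)] [∀ k, NumberField (L k)] (θ : ∀ k, L k), Sys f L θ →
      ∀ D : ℤ, DS (∏ k, f1 k) h D → NS f h θ (univ.image e) D)
    (hELS : ∀ D : ℤ, D ≠ 0 → DS (∏ k, f1 k) h D → ELS (∏ k, f1 k) h D) :
    (∃ δ C : ℝ, 0 < δ ∧ ∀ X : ℕ, 3 ≤ X →
      ({D : ℤ | D.natAbs ≤ X ∧ Squarefree D ∧ DS (∏ k, f1 k) h D}.ncard : ℝ) ≤
        C * Real.log X ^ (-δ) *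
        ({D : ℤ | D.natAbs ≤ X ∧ Squarefree D ∧ ELS (∏ k, f1 k) h D}.ncard : ℝ)) ∧
    ((∃ D0 : ℤ, Squarefree D0 ∧ ELS (∏ k, f1 k) h D0) → ∀ᶠ X : ℕ in atTop, (X : ℝ) / Real.log X ≤
      ({D : ℤ | D.natAbs ≤ X ∧ Squarefree D ∧ ELS (∏ k, f1 k) h D}.ncard : ℝ)) := by
  classical
  have hf0 : ∀ k, f k ≠ 0 := by
    intro k h
    exact (hirr k).ne_zero (by rw [h, Polynomial.map_zero])
  choose L iF iN θ hset using fun k => exists_setup (f k) (hirr k)
  have hs : Sys f L θ := ⟨hset, hna⟩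
  obtain ⟨k10⟩ : Nonempty K1 := inferInstance
  have hK : Nonempty K := ⟨e k10⟩
  set G : Finset K := univ.image e with hG
  have hGne : G.Nonempty := ⟨e k10, mem_image.2 ⟨k10, mem_univ _, rfl⟩⟩
  obtain ⟨ν, h0, h1, h2, h3, h4⟩ := sums hMEAN hLOW f f1 h e he hf0 hyp
  have hsum : ∀ A1 : Finset K1, nA L (A1.image e) = ∑ k ∈ A1, (f1 k).natDegree := by
    intro A1
    unfold nA
    rw [sum_image fun _ _ _ _ h => hinj h]
    refine sum_congr rfl fun k _ => ?_
    rw [← he]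
    exact (hset (e k)).deg
  have hGev : Even (nA L G) := by
    rw [hG, hsum, ← Polynomial.natDegree_prod _ _ fun k _ => by rw [← he]; exact hf0 _]
    exact hyp.ev
  have hSQ : ∀ σ k, e k ∈ SQ f h σ ↔ k ∈ SQ f1 h σ := by
    intro σ k
    rw [mem_SQ, mem_SQ, he]
  have hνk : ∀ A : Finset K, A ⊆ G → nA L A ≤ 2 →
      0 < ∑ T ∈ univ.filter (fun T : Finset K => (T ∩ G).Nonempty ∧ Disjoint (T ∩ G) A), ν T := by
    intro A hAG hA
    obtain ⟨A1, rfl⟩ : ∃ A1 : Finset K1, A = A1.image e := by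
      refine ⟨univ.filter fun k => e k ∈ A, ?_⟩
      ext x
      rw [mem_image]
      constructor
      · intro hx
        obtain ⟨k, -, rfl⟩ := mem_image.1 (hAG hx)
        exact ⟨k, mem_filter.2 ⟨mem_univ _, hx⟩, rfl⟩
      · rintro ⟨k, hk, rfl⟩
        exact (mem_filter.1 hk).2
    obtain ⟨σ, hσ1, hσ2⟩ : ∃ σ, (SQ f1 h σ).Nonempty ∧ Disjoint (SQ f1 h σ) A1 := by
      rcases A1.eq_empty_or_nonempty with rfl | hne
      · exact ⟨1, one_SQ f1 h hyp, Finset.disjoint_empty_right _⟩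
      · refine hH A1 hne ?_
        rw [← hsum]
        exact hA
    refine lt_of_lt_of_le (h2 σ) (Finset.single_le_sum (f := ν) (fun T _ => h0 T)
      (mem_filter.2 ⟨mem_univ _, ?_, ?_⟩))
    · obtain ⟨k, hk⟩ := hσ1
      exact ⟨e k, mem_inter.2 ⟨(hSQ σ k).2 hk, mem_image.2 ⟨k, mem_univ _, rfl⟩⟩⟩
    · rw [Finset.disjoint_left]
      intro x hx hxA
      obtain ⟨k, hk, rfl⟩ := mem_image.1 hxA
      exact Finset.disjoint_left.1 hσ2 ((hSQ σ k).1 (mem_inter.1 hx).1) hk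
  obtain ⟨δ, C, hδ, hup⟩ := upper hNRM hCORE hGOOD hyp.evh hs hev h6 G hGne hGev ν h0 hνk h4
  set ρ : ℝ := ∑ T ∈ univ.filter (fun T : Finset K => (T ∩ G).Nonempty), ν T with hρ
  have hρ0 : 0 < ρ := by
    refine lt_of_lt_of_le (h2 1) (Finset.single_le_sum (f := ν) (fun T _ => h0 T)
      (mem_filter.2 ⟨mem_univ _, ?_⟩))
    obtain ⟨k, hk⟩ := one_SQ f1 h hyp
    exact ⟨e k, mem_inter.2 ⟨(hSQ 1 k).2 hk, mem_image.2 ⟨k, mem_univ _, rfl⟩⟩⟩
  set δ' : ℝ := min δ ρ with hδ'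
  have hδ'0 : 0 < δ' := lt_min hδ hρ0
  have hβ0 : 0 < ρ - δ' / 2 := by linarith [min_le_right δ ρ]
  set NN : ℕ → ℝ := fun X => ({D : ℤ | D.natAbs ≤ X ∧ Squarefree D ∧
    DS (∏ k, f1 k) h D}.ncard : ℝ) with hNN
  set NE : ℕ → ℝ := fun X => ({D : ℤ | D.natAbs ≤ X ∧ Squarefree D ∧
          ELS (∏ k, f1 k) h D}.ncard : ℝ) with hNE
  have hle : ∀ X, NN X ≤ NE X := by
    intro X
    refine Nat.cast_le.2 (Set.ncard_le_ncard ?_ (fin_nat X _))
    rintro D ⟨h5, h6, h7⟩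
    exact ⟨h5, h6, hELS D h6.ne_zero h7⟩
  have hlow' : (∃ D0 : ℤ, Squarefree D0 ∧ ELS (∏ k, f1 k) h D0) → ∃ c : ℝ, 0 < c ∧
      ∀ᶠ X : ℕ in atTop, c * X * Real.log X ^ (ρ - δ' / 2 - 1) ≤ NE X := by
    rintro ⟨D0, hD0, hels⟩
    exact h3 D0 hD0 hels _ hβ0 (by linarith)
  refine ⟨?_, ?_⟩
  · by_cases hex : ∃ D0 : ℤ, Squarefree D0 ∧ ELS (∏ k, f1 k) h D0
    · obtain ⟨c, hc, hlow⟩ := hlow' hex
      have hev1 : ∀ᶠ X : ℕ in atTop, NN X ≤ max C 0 / c * Real.log X ^ (-(δ' / 2)) * NE X := by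
        filter_upwards [hup, hlow, eventually_ge_atTop 3] with X h5 h6 hX
        have hl1 : (1 : ℝ) < Real.log X := Pool.Agent.W262.TW.one_lt_log hX
        have hl0 : (0 : ℝ) < Real.log X := by linarith
        have hX0 : (0 : ℝ) < X := by exact_mod_cast (by omega : 0 < X)
        have e1 : Real.log X ^ (ρ - 1 - δ) ≤
            Real.log X ^ (-(δ' / 2)) * Real.log X ^ (ρ - δ' / 2 - 1) := by
          rw [← Real.rpow_add hl0]
          apply Real.rpow_le_rpow_of_exponent_le hl1.le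
          linarith [min_le_left δ ρ]
        calc NN X ≤ ({D : ℤ | D.natAbs ≤ X ∧ Squarefree D ∧ NS f h θ G D}.ncard : ℝ) := by
              refine Nat.cast_le.2 (Set.ncard_le_ncard ?_ (fin_nat X _))
              rintro D ⟨h7, h8, h9⟩
              exact ⟨h7, h8, hNS L θ hs D h9⟩
          _ ≤ C * X * Real.log X ^ (ρ - 1 - δ) := h5
          _ ≤ max C 0 * X * Real.log X ^ (ρ - 1 - δ) := by
              refine mul_le_mul_of_nonneg_right (mul_le_mul_of_nonneg_right (le_max_left _ _) hX0.le)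
                (by positivity)
          _ ≤ max C 0 * X * (Real.log X ^ (-(δ' / 2)) * Real.log X ^ (ρ - δ' / 2 - 1)) :=
              mul_le_mul_of_nonneg_left e1 (by positivity)
          _ = max C 0 / c * Real.log X ^ (-(δ' / 2)) * (c * X * Real.log X ^ (ρ - δ' / 2 - 1)) := by
              field_simp
          _ ≤ _ := mul_le_mul_of_nonneg_left h6 (by positivity)
      obtain ⟨X1, hX1⟩ := eventually_atTop.1 hev1
      refine ⟨δ' / 2, max (max C 0 / c) (Real.log (max X1 3 : ℕ) ^ (δ' / 2)), by linarith,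
        fun X hX => ?_⟩
      have hl1 : (1 : ℝ) < Real.log X := Pool.Agent.W262.TW.one_lt_log hX
      have hl0 : (0 : ℝ) < Real.log X := by linarith
      have hNE0 : 0 ≤ NE X := Nat.cast_nonneg _
      rcases le_total X1 X with h | h
      · refine (hX1 X h).trans ?_
        exact mul_le_mul_of_nonneg_right (mul_le_mul_of_nonneg_right (le_max_left _ _)
          (by positivity)) hNE0
      · refine (hle X).trans ?_
        have h5 : (1 : ℝ) ≤ Real.log (max X1 3 : ℕ) ^ (δ' / 2) * Real.log X ^ (-(δ' / 2)) := by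
          rw [Real.rpow_neg hl0.le, ← div_eq_mul_inv, one_le_div (by positivity)]
          refine Real.rpow_le_rpow hl0.le (Real.log_le_log (by positivity) ?_) (by linarith)
          exact_mod_cast h.trans (le_max_left _ _)
        calc NE X = 1 * NE X := (one_mul _).symm
          _ ≤ (Real.log (max X1 3 : ℕ) ^ (δ' / 2) * Real.log X ^ (-(δ' / 2))) * NE X :=
              mul_le_mul_of_nonneg_right h5 hNE0
          _ ≤ _ := mul_le_mul_of_nonneg_right (mul_le_mul_of_nonneg_right (le_max_right _ _)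
              (by positivity)) hNE0
    · refine ⟨1, 0, one_pos, fun X _ => ?_⟩
      have h5 : {D : ℤ | D.natAbs ≤ X ∧ Squarefree D ∧ DS (∏ k, f1 k) h D} = ∅ := by
        rw [Set.eq_empty_iff_forall_notMem]
        rintro D ⟨-, h6, h7⟩
        exact hex ⟨D, h6, hELS D h6.ne_zero h7⟩
      rw [h5, Set.ncard_empty]
      simp
  · intro hex
    obtain ⟨c, hc, hlow⟩ := hlow' hex
    have hlim : ∀ᶠ X : ℕ in atTop, 1 / c ≤ Real.log X ^ (ρ - δ' / 2) :=
      ((tendsto_rpow_atTop hβ0).comp (Real.tendsto_log_atTop.comp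
        tendsto_natCast_atTop_atTop)).eventually_ge_atTop (1 / c)
    filter_upwards [hlow, hlim, eventually_ge_atTop 3] with X h5 h6 hX
    have hl1 : (1 : ℝ) < Real.log X := Pool.Agent.W262.TW.one_lt_log hX
    have hl0 : (0 : ℝ) < Real.log X := by linarith
    have hX0 : (0 : ℝ) < X := by exact_mod_cast (by omega : 0 < X)
    refine le_trans ?_ h5
    have e1 : Real.log X ^ (ρ - δ' / 2 - 1) = Real.log X ^ (ρ - δ' / 2) / Real.log X := by
      rw [Real.rpow_sub hl0, Real.rpow_one]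
    rw [e1]
    have h7 : 1 ≤ c * Real.log X ^ (ρ - δ' / 2) := by
      rw [div_le_iff₀ hc] at h6
      linarith
    calc (X : ℝ) / Real.log X = X * 1 / Real.log X := by rw [mul_one]
      _ ≤ X * (c * Real.log X ^ (ρ - δ' / 2)) / Real.log X :=
          div_le_div_of_nonneg_right (mul_le_mul_of_nonneg_left h7 hX0.le) hl0.le
      _ = _ := by ring

/-- `g` and the `h i` -/
def gg {I : Type} (g : ℤ[X]) (h : I → ℤ[X]) : Option I → ℤ[X]
  | none => g
  | some i => h i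

theorem prod_gg {I : Type} [Fintype I] (g : ℤ[X]) (h : I → ℤ[X]) :
    ∏ o, gg g h o = g * ∏ i, h i := Fintype.prod_option _

theorem cop_gg {I : Type} [Fintype I] (g : ℤ[X]) (h : I → ℤ[X])
    (hsep : ((g * ∏ i, h i).map (Int.castRingHom ℚ)).Separable) (o o' : Option I) (ho : o ≠ o') :
    IsCoprime ((gg g h o).map (Int.castRingHom ℚ)) ((gg g h o').map (Int.castRingHom ℚ)) := by
  classical
  rw [← prod_gg, ← Finset.mul_prod_erase univ _ (mem_univ o), Polynomial.map_mul] at hsep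
  refine hsep.isCoprime.of_isCoprime_of_dvd_right ?_
  rw [Polynomial.map_prod]
  exact Finset.dvd_prod_of_mem _ (mem_erase.2 ⟨ho.symm, mem_univ _⟩)

theorem sep_gg {I : Type} [Fintype I] (g : ℤ[X]) (h : I → ℤ[X])
    (hsep : ((g * ∏ i, h i).map (Int.castRingHom ℚ)).Separable) (o : Option I) :
    ((gg g h o).map (Int.castRingHom ℚ)).Separable := by
  refine hsep.of_dvd ?_
  rw [← prod_gg, Polynomial.map_prod]
  exact Finset.dvd_prod_of_mem _ (mem_univ o)

/-- the descent set in terms of the fields -/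
theorem ns_of (hCZ : S_CZ) {I : Type} [Fintype I] (g : ℤ[X]) (h : I → ℤ[X]) (hh : ∀ i, h i ≠ 0)
    (J : Option I → Type) [∀ o, Fintype (J o)]
    (F : ∀ o, J o → ℤ[X]) (hF : ∀ o, ∏ j, F o j = gg g h o)
    (L : (Σ o, J o) → Type) [∀ k, Field (L k)] [∀ k, NumberField (L k)] (θ : ∀ k, L k)
    (hs : Sys (fun k : Σ o, J o => F k.1 k.2) L θ)
    (G : Finset (Σ o, J o)) (hG1 : ∀ R : Type, ∀ [CommMonoid R], ∀ x : (Σ o, J o) → R,
      ∏ k ∈ G, x k = ∏ j, x ⟨none, j⟩) (D : ℤ) (hD : DS g h D) :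
    NS (fun k : Σ o, J o => F k.1 k.2) h θ G D := by
  classical
  obtain ⟨d, hd, hsq, hsqi, hR, hp⟩ := hD
  have hprod : ∏ k : (Σ o, J o), F k.1 k.2 = g * ∏ i, h i := by
    rw [← prod_gg, Fintype.prod_sigma]
    exact prod_congr rfl fun o _ => hF o
  have hso : ∀ o, Sys (F o) (fun j => L ⟨o, j⟩) (fun j => θ ⟨o, j⟩) := fun o =>
    ⟨fun j => hs.set ⟨o, j⟩, fun j j' hj => hs.na ⟨o, j⟩ ⟨o, j'⟩ (by
      intro h1
      apply hj
      simpa using h1)⟩
  have hN : ∀ o, Algebra.norm ℚ (AdjoinRoot.mk ((gg g h o).map (Int.castRingHom ℚ)) d) =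
      ∏ j, Algebra.norm ℚ (aeval (θ ⟨o, j⟩) d) := by
    intro o
    rw [← hF o]
    exact Pool.Agent.H11.EM.nrm (J o) (F o) (fun j => L ⟨o, j⟩) (fun j => θ ⟨o, j⟩) (hso o) d
  refine ⟨d, hs.cop_iff.1 (by rw [hprod]; exact hd), ?_, ?_, fun p _ => ?_⟩
  · rw [hG1, hG1]
    have e1 : ∏ j, (fun k : Σ o, J o => F k.1 k.2) ⟨none, j⟩ = g := hF none
    rw [e1, ← hN none]
    exact hsq
  · have e1 : (∏ k, (fun k : Σ o, J o => F k.1 k.2) k).leadingCoeff =
        g.leadingCoeff * ∏ i, (h i).leadingCoeff := by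
      rw [hprod, leadingCoeff_mul, leadingCoeff_prod]
    have e2 : ∏ k, Algebra.norm ℚ (aeval (θ k) d) =
        Algebra.norm ℚ (AdjoinRoot.mk (g.map (Int.castRingHom ℚ)) d) *
          ∏ i, Algebra.norm ℚ (AdjoinRoot.mk ((h i).map (Int.castRingHom ℚ)) d) := by
      rw [Fintype.prod_sigma, Fintype.prod_option, ← hN none]
      congr 1
      exact prod_congr rfl fun i _ => (hN (some i)).symm
    rw [e1, e2]
    have e3 : ((D * (g.leadingCoeff * ∏ i, (h i).leadingCoeff) : ℤ) : ℚ) *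
        (Algebra.norm ℚ (AdjoinRoot.mk (g.map (Int.castRingHom ℚ)) d) *
          ∏ i, Algebra.norm ℚ (AdjoinRoot.mk ((h i).map (Int.castRingHom ℚ)) d)) =
        (((D * g.leadingCoeff : ℤ) : ℚ) *
          Algebra.norm ℚ (AdjoinRoot.mk (g.map (Int.castRingHom ℚ)) d)) *
        ∏ i, ((((h i).leadingCoeff : ℤ) : ℚ) *
          Algebra.norm ℚ (AdjoinRoot.mk ((h i).map (Int.castRingHom ℚ)) d)) := by
      rw [prod_mul_distrib]
      push_cast
      ring
    rw [e3]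
    exact hsq.mul (Finset.isSquare_prod _ fun i _ => hsqi i)
  · have h1 := hCZ I g h hh d hsqi ℚ_[p] (hp p)
    rw [← hprod] at h1
    exact h1

theorem main (hNRM : S_NRM) (hLIFT : S_LIFT) (hCZ : S_CZ) (hFACT : S_FACT) (hCORE : S_COREM)
    (hGOOD : S_GOOD) (hMEAN : S_MEAN) (hLOW : S_LOW) (I : Type) [Fintype I] [Nonempty I]
    (g : ℤ[X]) (h : I → ℤ[X]) (h4 : g.natDegree = 4)
    (hh : ∀ i, Even (h i).natDegree ∧ 1 ≤ (h i).natDegree)
    (hsep : ((g * ∏ i, h i).map (Int.castRingHom ℚ)).Separable) (hHG : HG g h) :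
    (∀ D : ℤ, D ≠ 0 → CurvePt g h D ℚ → DS g h D) ∧
    (∀ D : ℤ, D ≠ 0 → DS g h D → ELS g h D) ∧
    (∃ δ C : ℝ, 0 < δ ∧ ∀ X : ℕ, 3 ≤ X →
      ({D : ℤ | D.natAbs ≤ X ∧ Squarefree D ∧ DS g h D}.ncard : ℝ) ≤
        C * Real.log X ^ (-δ) *
        ({D : ℤ | D.natAbs ≤ X ∧ Squarefree D ∧ ELS g h D}.ncard : ℝ)) ∧
    ((∃ D0 : ℤ, Squarefree D0 ∧ ELS g h D0) → ∀ᶠ X : ℕ in atTop, (X : ℝ) / Real.log X ≤
      ({D : ℤ | D.natAbs ≤ X ∧ Squarefree D ∧ ELS g h D}.ncard : ℝ)) := by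
  classical
  have hg0 : g ≠ 0 := by
    rintro rfl
    simp at h4
  have hh0 : ∀ i, h i ≠ 0 := by
    intro i h0
    have := (hh i).2
    rw [h0] at this
    simp at this
  have hELS : ∀ D : ℤ, D ≠ 0 → DS g h D → ELS g h D := by
    rintro D hD ⟨d, hd, hsq, hsqi, hR, hp⟩
    have key : ∀ (F : Type) [Field F] [CharZero F],
        Pool.Agent.Q51.EL.CovPt (g * ∏ i, h i) d F → CurvePt g h D F := by
      intro F _ _ hc
      obtain ⟨x, w, q, z, hxw, hdvd, hz⟩ := hCZ I g h hh0 d hsqi F hc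
      refine s2e' g h hg0 D d hD hsq F ⟨x, w, q, z, hxw, ?_, hz⟩
      refine dvd_trans ?_ hdvd
      rw [Polynomial.map_mul]
      exact dvd_mul_right _ _
    exact ⟨key ℝ hR, fun p _ => key ℚ_[p] (hp p)⟩
  refine ⟨?_, hELS, ?_⟩
  · rintro D hD ⟨x, w, y, z, hxw, hy, hz⟩
    refine hLIFT I g h (by rw [h4]; decide) (by omega) hh hsep D x w y z hD hxw hy hz fun h0' => ?_
    have hw : w ≠ 0 := by
      rintro rfl
      rw [EM.LIFT.hom_zero'] at h0'
      rcases mul_eq_zero.1 h0' with h5 | h5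
      · exact hg0 (leadingCoeff_eq_zero.1 (by exact_mod_cast h5))
      · rcases hxw with h6 | h6
        · exact h6 (eq_zero_of_pow_eq_zero h5)
        · exact h6 rfl
    rw [EM.LIFT.hom_eq _ x w hw] at h0'
    have hx : eval (x / w) (g.map (Int.castRingHom ℚ)) = 0 := by
      rcases mul_eq_zero.1 h0' with h5 | h5
      · exact absurd h5 (pow_ne_zero _ hw)
      · exact h5
    obtain ⟨σ, -, hσ⟩ := hHG (X - C (x / w)) (dvd_iff_isRoot.2 hx) (by rw [natDegree_X_sub_C])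
      (by rw [natDegree_X_sub_C]; norm_num)
    apply hσ
    refine ⟨algebraMap ℚ (AlgebraicClosure ℚ) (x / w), ?_, σ.commutes _, fun i => ?_⟩
    · rw [map_sub, aeval_X, aeval_C, sub_self]
    · obtain ⟨n, hn⟩ := (hh i).1
      refine ⟨algebraMap ℚ (AlgebraicClosure ℚ) (z i / w ^ n), ?_, σ.commutes _⟩
      rw [aeval_algebraMap_apply, ← map_pow]
      congr 1
      have hz := hz i
      rw [EM.LIFT.hom_eq _ x w hw, hn] at hz
      have h7 : aeval (x / w) (h i) = eval (x / w) ((h i).map (Int.castRingHom ℚ)) := by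
        rw [eval_map, aeval_def]
        rfl
      rw [h7, div_pow, hz, ← pow_mul, mul_two]
      field_simp
  · have hdeg : ∀ o, 1 ≤ (gg g h o).natDegree := by
      rintro (_ | i)
      · change 1 ≤ g.natDegree
        omega
      · exact (hh i).2
    choose n F hF hirr hna using fun o => hFACT (gg g h o) (sep_gg g h hsep o) (hdeg o)
    have hg1 : ∏ j, F none j = g := hF none
    have hyp : Hyp (F none) h := ⟨hirr none, hna none, by rw [hg1, h4]; decide, fun i => (hh i).1,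
      fun i => (hh i).2, by rw [hg1]; exact hsep⟩
    have hprod : ∏ k : (Σ o, Fin (n o + 1)), F k.1 k.2 = g * ∏ i, h i := by
      rw [← prod_gg, Fintype.prod_sigma]
      exact prod_congr rfl fun o _ => hF o
    have hnd : (g * ∏ i, h i).natDegree = 4 + ∑ i, (h i).natDegree := by
      rw [natDegree_mul hg0 (Finset.prod_ne_zero_iff.2 fun i _ => hh0 i), h4,
        natDegree_prod _ _ fun i _ => hh0 i]
    have hinj : Function.Injective (fun j : Fin (n none + 1) => (⟨none, j⟩ : Σ o, Fin (n o + 1))) := by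
      intro j j' hj
      simpa using hj
    have := core hNRM hCORE hGOOD hMEAN hLOW (Σ o, Fin (n o + 1)) (Fin (n none + 1)) I
      (fun k => F k.1 k.2) (F none) h (fun j => ⟨none, j⟩) (fun _ => rfl) hinj
      (fun k => hirr k.1 k.2) ?_ hyp ?_ ?_ (HH_of (F none) h hyp (by rw [hg1]; exact hHG)) ?_
      (by rw [hg1]; exact hELS)
    · rw [hg1] at this
      exact this
    · rintro ⟨o, j⟩ ⟨o', j'⟩ hne hass
      by_cases ho : o = o'
      · subst ho
        exact hna o j j' (fun hj => hne (by rw [hj])) hass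
      · have h1 : ∀ o j, (F o j).map (Int.castRingHom ℚ) ∣ (gg g h o).map (Int.castRingHom ℚ) := by
          intro o j
          rw [← hF o, Polynomial.map_prod]
          exact Finset.dvd_prod_of_mem _ (mem_univ j)
        exact (hirr o j).not_isUnit ((cop_gg g h hsep o o' ho).isUnit_of_dvd' (h1 o j)
          (hass.dvd.trans (h1 o' j')))
    · rw [hprod, hnd]
      exact Even.add (by decide) (Finset.even_sum _ fun i _ => (hh i).1)
    · rw [hprod, hnd]
      obtain ⟨i0⟩ : Nonempty I := inferInstance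
      have h5 : (h i0).natDegree ≤ ∑ i, (h i).natDegree :=
        Finset.single_le_sum (f := fun i => (h i).natDegree) (fun _ _ => Nat.zero_le _) (mem_univ i0)
      obtain ⟨m, hm⟩ := (hh i0).1
      have := (hh i0).2
      omega
    · intro L _ _ θ hs D hD
      rw [hg1] at hD
      exact ns_of hCZ g h hh0 (fun o => Fin (n o + 1)) F hF L θ hs _ (fun R _ x => by
        rw [Finset.prod_image fun _ _ _ _ h => hinj h]) D hD

end Pool.Agent.H11.EQ
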