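import Pool.Agent.H11.EN.Up
import Pool.Agent.H11.EQ.Data

/-! Project EQ: the upper bound (copy of `Pool/Agent/H11/EN/Up.lean` with changes). -/

set_option autoImplicit false
set_option linter.unusedSectionVars false

namespace Pool.Agent.H11.EQ

open Polynomial NumberField IsDedekindDomain Finset Filter Topology
open Pool.Agent.Q51.EL (Abv Par N1 pr Setup hom)
open Pool.Agent.H11.EM (PL In Ty1 Ty2 box cls dg NN tau Good Sys fin_nat bad_exp)
open Pool.Agent.H11.EC (SR)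
open Pool.Agent.H11.EN (nA S_COREM S_GOOD cov bad_count good_exp)

variable {K I : Type} [Fintype K] [DecidableEq K] [Fintype I] {f : K → ℤ[X]} {h : I → ℤ[X]}
  {L : K → Type} [∀ k, Field (L k)] [∀ k, NumberField (L k)] {θ : ∀ k, L k}

theorem upper [Nonempty K] (hNRM : S_NRM) (hCORE : S_COREM) (hGOOD : S_GOOD)
    (hevh : ∀ i, Even (h i).natDegree)
    (hs : Sys f L θ) (hev : Even (∏ k, f k).natDegree)
    (h6 : 6 ≤ (∏ k, f k).natDegree) (G : Finset K) (hG : G.Nonempty) (hGev : Even (nA L G))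
    (ν : Finset K → ℝ) (h0 : ∀ T, 0 ≤ ν T)
    (hk : ∀ A : Finset K, A ⊆ G → nA L A ≤ 2 →
      0 < ∑ T ∈ univ.filter (fun T : Finset K => (T ∩ G).Nonempty ∧ Disjoint (T ∩ G) A), ν T)
    (hsum : ∀ (T : Finset (Finset K)) (η : ℝ), 0 < η → ∃ C : ℝ, ∀ Y : ℝ, 3 ≤ Y →
        ∑ q ∈ (pr Y).filter (fun q => SR f h q ∈ T), (1 : ℝ) / q ≤
          (∑ t ∈ T, ν t + η) * Real.log (Real.log Y) + C) :
    ∃ δ C : ℝ, 0 < δ ∧ ∀ᶠ X : ℕ in atTop,
      ({D : ℤ | D.natAbs ≤ X ∧ Squarefree D ∧ NS f h θ G D}.ncard : ℝ) ≤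
        C * X * Real.log X ^
          (∑ T ∈ univ.filter (fun T : Finset K => (T ∩ G).Nonempty), ν T - 1 - δ) := by
  classical
  obtain ⟨B, C1, C2, c, T, A, P, hB, hC1, hC2, hc, hA, hE, hbox⟩ := data hNRM hCORE hs hevh hev h6 G hG hGev
  set g : ℤ[X] := ∏ k, f k with hg
  set n : ℕ := dg L with hn
  have hn1 : (1 : ℝ) ≤ n := by
    have : 1 ≤ n := by rw [hn, hs.deg, ← hg]; omega
    exact_mod_cast this
  set E : Set ℤ := {D : ℤ | Squarefree D ∧ NS f h θ G D} with hEdef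
  obtain ⟨C4, hC4, hgood⟩ := hGOOD K L T A P E (GR f h G) C1 C2 c hC2 hA
    (fun D hD => ⟨(hE D hD.1 hD.2).1, (hE D hD.1 hD.2).2.1, (hE D hD.1 hD.2).2.2.1,
      (hE D hD.1 hD.2).2.2.2.1⟩) hbox
  obtain ⟨C5, hC5, hbad⟩ := bad_count (RR f h G) P E B hB
    (fun D hD => ⟨hD.1.ne_zero, (hE D hD.1 hD.2).1, (hE D hD.1 hD.2).2.2.2.2.1⟩)
  set ρ : ℝ := ∑ T ∈ univ.filter (fun T : Finset K => (T ∩ G).Nonempty), ν T with hρ
  have hρ0 : 0 ≤ ρ := sum_nonneg fun T _ => h0 T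
  -- parameters
  let J : Type := {A : Finset K // A ⊆ G ∧ nA L A ≤ 2}
  let p : J → ℝ := fun A => ∑ T ∈ univ.filter (fun T : Finset K => (T ∩ G).Nonempty ∧ Disjoint (T ∩ G) A.1), ν T
  haveI : Nonempty J := ⟨⟨∅, by simp [nA]⟩⟩
  obtain ⟨κ, hκ0, hκ⟩ : ∃ κ : ℝ, 0 < κ ∧ ∀ A : J, κ ≤ p A := by
    obtain ⟨k0, -, hk0⟩ := Finset.exists_min_image (univ : Finset J) p univ_nonempty
    exact ⟨p k0, hk k0.1 k0.2.1 k0.2.2, fun k => hk0 k (mem_univ k)⟩
  set r : ℝ := (Fintype.card K : ℝ) with hr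
  have hr1' : 1 ≤ Fintype.card K := Fintype.card_pos
  have hr1 : 1 ≤ r := by
    rw [hr]
    exact_mod_cast hr1'
  set ε : ℝ := min (1 / 2) (c / (2 * (r + c))) with hε
  have hε0 : 0 < ε := lt_min (by norm_num) (by positivity)
  have hε1 : ε ≤ 1 / 2 := min_le_left _ _
  have hε2 : ε * (r + c) ≤ c / 2 := by
    have h1 : ε ≤ c / (2 * (r + c)) := min_le_right _ _
    rw [le_div_iff₀ (by positivity)] at h1
    linarith
  set η : ℝ := min (c / 8) (ε * κ / 8) with hη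
  have hη0 : 0 < η := lt_min (by positivity) (by positivity)
  have hη1 : η ≤ c / 8 := min_le_left _ _
  have hη2 : η ≤ ε * κ / 8 := min_le_right _ _
  -- the sums over primes
  obtain ⟨C6, hC6⟩ := hsum (univ.filter (fun T : Finset K => (T ∩ G).Nonempty)) η hη0
  have h1 := fun A : J =>
    hsum (univ.filter (fun T : Finset K => (T ∩ G).Nonempty ∧ ¬ Disjoint (T ∩ G) A.1)) η hη0
  choose C7 hC7 using h1
  have h2 := fun A : J =>
    hsum (univ.filter (fun T : Finset K => (T ∩ G).Nonempty ∧ Disjoint (T ∩ G) A.1)) η hη0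
  choose C8 hC8 using h2
  have hT1 : ∀ A : J, ∑ T ∈ univ.filter (fun T : Finset K => (T ∩ G).Nonempty ∧ ¬ Disjoint (T ∩ G) A.1), ν T =
      ρ - p A := by
    intro A
    have e1 := Finset.sum_filter_add_sum_filter_not
      (univ.filter (fun T : Finset K => (T ∩ G).Nonempty)) (fun T => Disjoint (T ∩ G) A.1) ν
    rw [filter_filter, filter_filter] at e1
    linarith
  set δ : ℝ := min (c / 4) (3 * ε * κ / 4) with hδ
  have hδ0 : 0 < δ := lt_min (by positivity) (by positivity)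
  set m : ℕ := Fintype.card K with hm
  refine ⟨δ, C4 * 3 ^ m * ((1 + 8 * m / c) ^ m * 3 ^ (c / 8)) * Real.exp C6 +
    ∑ k : J, C5 * Real.exp ((p k + η) * Real.log n + (C7 k + C8 k)), hδ0, ?_⟩
  have hlim : ∀ᶠ X : ℕ in atTop, (2 : ℝ) ≤ Real.log X ^ (1 - ε) :=
    ((tendsto_rpow_atTop (by linarith : (0 : ℝ) < 1 - ε)).comp (Real.tendsto_log_atTop.comp
      tendsto_natCast_atTop_atTop)).eventually_ge_atTop 2
  have hlimB : ∀ᶠ X : ℕ in atTop, (B : ℝ) + 1 ≤ Real.log X ^ (1 - ε) :=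
    ((tendsto_rpow_atTop (by linarith : (0 : ℝ) < 1 - ε)).comp (Real.tendsto_log_atTop.comp
      tendsto_natCast_atTop_atTop)).eventually_ge_atTop _
  filter_upwards [hlim, hlimB, eventually_ge_atTop 3] with X hX2 hXB hX3
  have hX3' : (3 : ℝ) ≤ X := by exact_mod_cast hX3
  have hl1 : (1 : ℝ) < Real.log X := Pool.Agent.W262.TW.one_lt_log hX3
  have hl0 : (0 : ℝ) < Real.log X := by linarith
  have hX0 : (0 : ℝ) < X := by linarith
  set Z : ℝ := Real.exp (Real.log X ^ (1 - ε)) with hZ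
  have hlZ : Real.log Z = Real.log X ^ (1 - ε) := Real.log_exp _
  have hZ3 : 3 ≤ Z := by
    have h3 : Real.exp 2 ≤ Z := Real.exp_le_exp.2 hX2
    have h4 : (2.7182818283 : ℝ) < Real.exp 1 := Real.exp_one_gt_d9
    have h5 : Real.exp 2 = Real.exp 1 * Real.exp 1 := by rw [← Real.exp_add]; norm_num
    nlinarith
  set W : ℝ := Z ^ n with hW
  have hW3 : 3 ≤ W := by
    have h3 : 1 ≤ n := by exact_mod_cast hn1
    calc (3 : ℝ) ≤ Z := hZ3
      _ = Z ^ 1 := (pow_one Z).symm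
      _ ≤ Z ^ n := pow_le_pow_right₀ (by linarith) h3
  have hBW : (B : ℝ) < W := by
    have h3 : 1 ≤ n := by exact_mod_cast hn1
    calc (B : ℝ) < Real.log X ^ (1 - ε) := by linarith
      _ ≤ Z := (Real.add_one_le_exp _).trans' (by linarith)
      _ = Z ^ 1 := (pow_one Z).symm
      _ ≤ Z ^ n := pow_le_pow_right₀ (by linarith) h3
  have hlW : Real.log W = n * Real.log X ^ (1 - ε) := by
    rw [hW, Real.log_pow, hlZ]
  -- the decomposition
  have hcov := cov {D : ℤ | D.natAbs ≤ X ∧ Squarefree D ∧ NS f h θ G D}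
    {D : ℤ | D.natAbs ≤ X ∧ D ∈ E ∧ 3 ≤ nA L (univ.filter (fun k => Z ^ n ≤ (P D k : ℝ)))}
    (fun A : J => {D : ℤ | D.natAbs ≤ X ∧ D ∈ E ∧ ∀ k, W ≤ (P D k : ℝ) → k ∈ A.1}) (fin_nat X _)
    (fun k => fin_nat X _) (by
      rintro D ⟨hDX, hDE⟩
      by_cases h : 3 ≤ nA L (univ.filter (fun k => Z ^ n ≤ (P D k : ℝ)))
      · exact Or.inl ⟨hDX, hDE, h⟩
      · right
        refine Set.mem_iUnion.2 ⟨⟨univ.filter (fun k => Z ^ n ≤ (P D k : ℝ)), ?_, by omega⟩,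
          hDX, hDE, fun k hk => mem_filter.2 ⟨mem_univ _, hk⟩⟩
        intro k hk
        by_contra hkG
        have h3 := (hE D hDE.1 hDE.2).2.2.2.2.2 k hkG
        have h4 : (P D k : ℝ) ≤ B := by exact_mod_cast h3
        have h5 := (mem_filter.1 hk).2
        linarith)
  refine hcov.trans ?_
  have hg1 : ({D : ℤ | D.natAbs ≤ X ∧ D ∈ E ∧
      3 ≤ nA L (univ.filter (fun k => Z ^ n ≤ (P D k : ℝ)))}.ncard : ℝ) ≤
      C4 * 3 ^ m * ((1 + 8 * m / c) ^ m * 3 ^ (c / 8)) * Real.exp C6 * X *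
        Real.log X ^ (ρ - 1 - c / 4) := by
    refine (hgood Z X hZ3 (by omega)).trans ?_
    refine good_exp C4 C6 ρ η c ε _ hr1' hC4 hc (by linarith) hη1 hε0 hε1 hε2 X hX3 _ Z hlZ ?_
    have h4 := hC6 Z hZ3
    have h5 : GR f h G Z =
        ∑ q ∈ (pr Z).filter (fun q => SR f h q ∈ univ.filter (fun T : Finset K => (T ∩ G).Nonempty)),
          (1 : ℝ) / q := by
      unfold GR
      refine sum_congr (filter_congr fun q _ => ?_) fun _ _ => rfl
      rw [mem_filter]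
      exact ⟨fun h8 => ⟨mem_univ _, h8⟩, fun h8 => h8.2⟩
    rw [h5]
    exact h4
  have hb1 : ∀ A : J, ({D : ℤ | D.natAbs ≤ X ∧ D ∈ E ∧ ∀ k, W ≤ (P D k : ℝ) → k ∈ A.1}.ncard : ℝ) ≤
      C5 * Real.exp ((p A + η) * Real.log n + (C7 A + C8 A)) * X *
        Real.log X ^ (ρ - 1 - 3 * ε * κ / 4) := by
    intro A
    refine (hbad A.1 X W hX3).trans ?_
    refine bad_exp C5 (C7 A + C8 A) ρ (p A) η κ ε n hn1 hC5 (hκ A) hη0 hη2 hε0 X hX3 _ W hlW ?_
    have h3 := hC7 A X hX3'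
    have h4 := hC8 A W hW3
    rw [hT1] at h3
    have h5 : (pr X).filter (fun q => (RR f h G q).Nonempty ∧ (Disjoint (RR f h G q) A.1 → (q : ℝ) < W)) ⊆
        (pr X).filter (fun q => SR f h q ∈
          univ.filter (fun T : Finset K => (T ∩ G).Nonempty ∧ ¬ Disjoint (T ∩ G) A.1)) ∪
        (pr W).filter (fun q => SR f h q ∈
          univ.filter (fun T : Finset K => (T ∩ G).Nonempty ∧ Disjoint (T ∩ G) A.1)) := by
      intro q hq
      obtain ⟨hq1, hq2, hq3⟩ := mem_filter.1 hq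
      by_cases h : Disjoint (RR f h G q) A.1
      · refine mem_union_right _ (mem_filter.2 ⟨?_, mem_filter.2 ⟨mem_univ _, hq2, h⟩⟩)
        have h6 := hq3 h
        obtain ⟨h7, h8⟩ := mem_filter.1 hq1
        exact mem_filter.2 ⟨mem_Icc.2 ⟨(mem_Icc.1 h7).1, Nat.le_floor h6.le⟩, h8⟩
      · exact mem_union_left _ (mem_filter.2 ⟨hq1, mem_filter.2 ⟨mem_univ _, hq2, h⟩⟩)
    have h6 := Finset.sum_le_sum_of_subset_of_nonneg (f := fun q : ℕ => (1 : ℝ) / q) h5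
      (fun _ _ _ => by positivity)
    have h7 := Finset.sum_union_inter (s₁ := (pr X).filter (fun q => SR f h q ∈
          univ.filter (fun T : Finset K => (T ∩ G).Nonempty ∧ ¬ Disjoint (T ∩ G) A.1)))
      (s₂ := (pr W).filter (fun q => SR f h q ∈
          univ.filter (fun T : Finset K => (T ∩ G).Nonempty ∧ Disjoint (T ∩ G) A.1)))
      (f := fun q : ℕ => (1 : ℝ) / q)
    have h8 : 0 ≤ ∑ q ∈ (pr X).filter (fun q => SR f h q ∈
          univ.filter (fun T : Finset K => (T ∩ G).Nonempty ∧ ¬ Disjoint (T ∩ G) A.1)) ∩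
        (pr W).filter (fun q => SR f h q ∈
          univ.filter (fun T : Finset K => (T ∩ G).Nonempty ∧ Disjoint (T ∩ G) A.1)), (1 : ℝ) / q :=
      Finset.sum_nonneg fun _ _ => by positivity
    linarith
  have hexp1 : Real.log X ^ (ρ - 1 - c / 4) ≤ Real.log X ^ (ρ - 1 - δ) :=
    Real.rpow_le_rpow_of_exponent_le hl1.le (by linarith [min_le_left (c / 4) (3 * ε * κ / 4)])
  have hexp2 : Real.log X ^ (ρ - 1 - 3 * ε * κ / 4) ≤ Real.log X ^ (ρ - 1 - δ) :=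
    Real.rpow_le_rpow_of_exponent_le hl1.le (by linarith [min_le_right (c / 4) (3 * ε * κ / 4)])
  rw [add_mul, add_mul, sum_mul, sum_mul]
  refine add_le_add (hg1.trans ?_) (sum_le_sum fun k _ => (hb1 k).trans ?_)
  · exact mul_le_mul_of_nonneg_left hexp1 (by positivity)
  · exact mul_le_mul_of_nonneg_left hexp2 (by positivity)

end Pool.Agent.H11.EQ
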